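import Pool.Graph.R_seed8.Helper406.Rec.Pos
import Pool.Graph.R_seed8.Helper406.Rec2.Act

/-!
Exponential decay of weighted multiple correlations along digit sets.
-/

namespace Pool.Agent.H239.KRec

open Finset MeasureTheory
open Pool.Agent.Helper406.Rec2 (Act)
open Pool.Agent.Helper406.Rec (game wt sd Xv Yv Zv yi zi Xv_sd Xv_sd2)

universe u

section nice
variable {X : Type u} [MeasurableSpace X]

/-- measurable functions bounded by one -/
def Nice (f : X → ℂ) : Prop := Measurable f ∧ ∀ x, ‖f x‖ ≤ 1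

lemma Nice.mul {f g : X → ℂ} (hf : Nice f) (hg : Nice g) : Nice (fun x => f x * g x) := by
  refine ⟨hf.1.mul hg.1, fun x => ?_⟩
  rw [norm_mul]
  have h1 := hf.2 x
  have h2 := hg.2 x
  have h3 := norm_nonneg (f x)
  have h4 := norm_nonneg (g x)
  nlinarith

lemma Nice.one : Nice (fun _ : X => (1 : ℂ)) := ⟨measurable_const, fun _ => by simp⟩

lemma Nice.prod {ι : Type} (s : Finset ι) {f : ι → X → ℂ} (hf : ∀ i ∈ s, Nice (f i)) :
    Nice (fun x => ∏ i ∈ s, f i x) := by
  classical
  induction s using Finset.induction_on with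
  | empty => simpa using Nice.one
  | insert a s ha ih =>
    have h1 := (hf a (Finset.mem_insert_self a s)).mul
      (ih fun i hi => hf i (Finset.mem_insert_of_mem hi))
    have h2 : (fun x => ∏ i ∈ insert a s, f i x) = fun x => f a x * ∏ i ∈ s, f i x := by
      funext x
      rw [Finset.prod_insert ha]
    rw [h2]
    exact h1

lemma Nice.conj {f : X → ℂ} (hf : Nice f) : Nice (fun x => (starRingEnd ℂ) (f x)) := by
  refine ⟨?_, fun x => ?_⟩
  · exact Complex.continuous_conj.measurable.comp hf.1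
  · rw [Complex.norm_conj]
    exact hf.2 x

lemma Nice.comp {f : X → ℂ} (hf : Nice f) {T : X → X} (hT : Measurable T) :
    Nice (fun x => f (T x)) := ⟨hf.1.comp hT, fun x => hf.2 (T x)⟩

lemma Nice.integrable {f : X → ℂ} (hf : Nice f) (μ : Measure X) [IsFiniteMeasure μ] :
    Integrable f μ :=
  Integrable.of_bound hf.1.aestronglyMeasurable 1 (Filter.Eventually.of_forall hf.2)

end nice

section decay
variable {X : Type u} [MeasurableSpace X] {μ : Measure X} [IsProbabilityMeasure μ]

lemma integral_shift (S : Act μ) (k : ℤ) {f : X → ℂ} (hf : Measurable f) :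
    ∫ x, f (S.P k x) ∂μ = ∫ x, f x ∂μ := by
  have h1 := integral_map (μ := μ) (φ := S.P k) (S.mp k).measurable.aemeasurable
    (f := f) (by rw [(S.mp k).map_eq]; exact hf.aestronglyMeasurable)
  rw [(S.mp k).map_eq] at h1
  exact h1.symm

/-- exponential decay of weighted correlations of `m + 1` functions along sums of digits -/
def Decay (S : Act μ) (m : ℕ) (E : Type) [Fintype E] (w : E → ℂ) (Sig : Set (E → ℤ)) (ρ : ℝ) :
    Prop :=
  ∀ (ι : Type) [Fintype ι] [DecidableEq ι] (s : ι → E → ℤ), (∀ i, s i ∈ Sig) →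
    ∀ f : ℕ → X → ℂ, (∀ l, Nice (f l)) →
    ‖∑ u : ι → E, (∏ i, w (u i)) *
      ∫ x, ∏ l ∈ range (m + 1), f l (S.P ((l : ℤ) * ∑ i, s i (u i)) x) ∂μ‖
      ≤ (ρ * Fintype.card E) ^ (Fintype.card ι)

lemma Decay.mask {S : Act μ} {m : ℕ} {E : Type} [Fintype E] {w : E → ℂ} {Sig : Set (E → ℤ)}
    {ρ : ℝ} (h : Decay S m E w Sig ρ) (ι : Type) [Fintype ι] [DecidableEq ι]
    (s : ι → E → ℤ) (hs : ∀ i, s i ∈ Sig) (f : ℕ → X → ℂ) (hf : ∀ l, Nice (f l))
    (p : ι → Prop) [DecidablePred p] (c : ι → E → ℂ) (hc : ∀ i, p i → c i = w)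
    (hc' : ∀ i, ¬ p i → ∀ e, ‖c i e‖ ≤ 1) :
    ‖∑ u : ι → E, (∏ i, c i (u i)) *
      ∫ x, ∏ l ∈ range (m + 1), f l (S.P ((l : ℤ) * ∑ i, s i (u i)) x) ∂μ‖
      ≤ (Fintype.card E : ℝ) ^ (Fintype.card ι) * ρ ^ (Fintype.card {i // p i}) := by
  classical
  have h1 : ∑ u : ι → E, (∏ i, c i (u i)) *
      ∫ x, ∏ l ∈ range (m + 1), f l (S.P ((l : ℤ) * ∑ i, s i (u i)) x) ∂μ
      = ∑ v : {i // ¬ p i} → E, (∏ i : {i // ¬ p i}, c i (v i)) *
        ∑ u : {i // p i} → E, (∏ i, w (u i)) *
        ∫ x, ∏ l ∈ range (m + 1), f l (S.P ((l : ℤ) * ∑ i : {i // ¬ p i}, s i (v i))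
          (S.P ((l : ℤ) * ∑ i : {i // p i}, s i (u i)) x)) ∂μ := by
    rw [← Equiv.sum_comp (Equiv.piEquivPiSubtypeProd p (fun _ => E)).symm, Fintype.sum_prod_type,
      Finset.sum_comm]
    apply Finset.sum_congr rfl
    intro v _
    rw [Finset.mul_sum]
    apply Finset.sum_congr rfl
    intro u _
    have e1 : ∀ i : {i // p i}, (Equiv.piEquivPiSubtypeProd p (fun _ => E)).symm (u, v) i = u i := by
      intro i
      simp [Equiv.piEquivPiSubtypeProd, i.2]
    have e2 : ∀ i : {i // ¬ p i},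
        (Equiv.piEquivPiSubtypeProd p (fun _ => E)).symm (u, v) i = v i := by
      intro i
      simp [Equiv.piEquivPiSubtypeProd, i.2]
    have e3 : ∏ i, c i ((Equiv.piEquivPiSubtypeProd p (fun _ => E)).symm (u, v) i)
        = (∏ i : {i // p i}, w (u i)) * ∏ i : {i // ¬ p i}, c i (v i) := by
      rw [← Fintype.prod_subtype_mul_prod_subtype p]
      congr 1
      · apply Finset.prod_congr rfl
        intro i _
        rw [e1, hc i i.2]
      · apply Finset.prod_congr rfl
        intro i _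
        rw [e2]
    have e4 : ∑ i, s i ((Equiv.piEquivPiSubtypeProd p (fun _ => E)).symm (u, v) i)
        = (∑ i : {i // p i}, s i (u i)) + ∑ i : {i // ¬ p i}, s i (v i) := by
      rw [← Fintype.sum_subtype_add_sum_subtype p]
      congr 1
      · apply Finset.sum_congr rfl
        intro i _
        rw [e1]
      · apply Finset.sum_congr rfl
        intro i _
        rw [e2]
    rw [e3, e4]
    have e5 : ∀ x, ∏ l ∈ range (m + 1), f l (S.P ((l : ℤ) * ((∑ i : {i // p i}, s i (u i)) +
        ∑ i : {i // ¬ p i}, s i (v i))) x)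
        = ∏ l ∈ range (m + 1), f l (S.P ((l : ℤ) * ∑ i : {i // ¬ p i}, s i (v i))
          (S.P ((l : ℤ) * ∑ i : {i // p i}, s i (u i)) x)) := by
      intro x
      apply Finset.prod_congr rfl
      intro l _
      rw [← S.add]
      congr 2
      ring
    simp only [e5]
    ring
  rw [h1]
  refine (norm_sum_le _ _).trans ?_
  have h2 : ∀ v ∈ (Finset.univ : Finset ({i // ¬ p i} → E)),
      ‖(∏ i : {i // ¬ p i}, c i (v i)) * ∑ u : {i // p i} → E, (∏ i, w (u i)) *
        ∫ x, ∏ l ∈ range (m + 1), f l (S.P ((l : ℤ) * ∑ i : {i // ¬ p i}, s i (v i))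
          (S.P ((l : ℤ) * ∑ i : {i // p i}, s i (u i)) x)) ∂μ‖
      ≤ (ρ * Fintype.card E) ^ (Fintype.card {i // p i}) := by
    intro v _
    rw [norm_mul]
    have h3 : ‖∏ i : {i // ¬ p i}, c i (v i)‖ ≤ 1 := by
      rw [norm_prod]
      exact Finset.prod_le_one (fun _ _ => norm_nonneg _) (fun i _ => hc' i i.2 _)
    have h4 := h {i // p i} (fun i => s i) (fun i => hs i)
      (fun l x => f l (S.P ((l : ℤ) * ∑ i : {i // ¬ p i}, s i (v i)) x))
      (fun l => (hf l).comp (S.mp _).measurable)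
    have h5 := norm_nonneg (∑ u : {i // p i} → E, (∏ i, w (u i)) *
        ∫ x, ∏ l ∈ range (m + 1), f l (S.P ((l : ℤ) * ∑ i : {i // ¬ p i}, s i (v i))
          (S.P ((l : ℤ) * ∑ i : {i // p i}, s i (u i)) x)) ∂μ)
    calc _ ≤ 1 * ‖∑ u : {i // p i} → E, (∏ i, w (u i)) *
        ∫ x, ∏ l ∈ range (m + 1), f l (S.P ((l : ℤ) * ∑ i : {i // ¬ p i}, s i (v i))
          (S.P ((l : ℤ) * ∑ i : {i // p i}, s i (u i)) x)) ∂μ‖ :=
          mul_le_mul_of_nonneg_right h3 h5
      _ ≤ _ := by rw [one_mul]; exact h4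
  refine (Finset.sum_le_sum h2).trans (le_of_eq ?_)
  rw [Finset.sum_const, Finset.card_univ, Fintype.card_fun, nsmul_eq_mul, mul_pow]
  push_cast
  have h6 : Fintype.card ι = Fintype.card {i // ¬ p i} + Fintype.card {i // p i} := by
    have := Fintype.card_subtype_compl p
    have h7 := Fintype.card_subtype_le p
    omega
  rw [h6, pow_add]
  ring

/-- one Cauchy-Schwarz step: an auxiliary binary digit pays for one more function -/
theorem Decay.step {S : Act μ} {m : ℕ} {E : Type} [Fintype E] {w : E → ℂ} {Sig : Set (E → ℤ)}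
    {ρ : ℝ} (h : Decay S m E w Sig ρ) (hρ : 0 ≤ ρ) (hw : ∀ e, ‖w e‖ = 1) :
    Decay S (m + 1) (E × Bool) (fun e => if e.2 then w e.1 else 1)
      {σ | ∃ s ∈ Sig, ∃ t : ℤ, σ = fun e => s e.1 + if e.2 then t else 0}
      (Real.sqrt ((3 + ρ) / 4)) := by
  classical
  intro ι _ _ σ hσ f hf
  choose s hs t hst using hσ
  set n := Fintype.card ι with hn
  -- notation
  let Nn : (ι → E) → ℤ := fun u => ∑ i, s i (u i)
  let Mm : (ι → Bool) → ℤ := fun b => ∑ i, if b i then t i else 0
  let W : (ι → E) → (ι → Bool) → ℂ := fun u b => ∏ i, (if b i then w (u i) else 1)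
  let Q : (ι → E) → (ι → Bool) → X → ℂ := fun u b x =>
    ∏ l ∈ range (m + 1), f l (S.P ((l : ℤ) * Nn u + ((l : ℤ) - (m + 1)) * Mm b) x)
  let G : (ι → E) → X → ℂ := fun u x => f (m + 1) (S.P (((m : ℤ) + 1) * Nn u) x)
  have hQ : ∀ u b, Nice (Q u b) := fun u b =>
    Nice.prod _ fun l _ => (hf l).comp (S.mp _).measurable
  have hG : ∀ u, Nice (G u) := fun u => (hf _).comp (S.mp _).measurable
  have hW : ∀ u b, ‖W u b‖ ≤ 1 := by
    intro u b
    show ‖∏ i, (if b i then w (u i) else 1)‖ ≤ 1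
    rw [norm_prod]
    apply Finset.prod_le_one (fun _ _ => norm_nonneg _)
    intro i _
    split_ifs
    · rw [hw]
    · simp
  -- the sum
  have h1 : ∑ u : ι → E × Bool, (∏ i, (if (u i).2 then w (u i).1 else 1)) *
      ∫ x, ∏ l ∈ range (m + 1 + 1), f l (S.P ((l : ℤ) * ∑ i, σ i (u i)) x) ∂μ
      = ∑ u : ι → E, ∫ x, G u x * ∑ b : ι → Bool, W u b * Q u b x ∂μ := by
    rw [← Equiv.sum_comp (Equiv.arrowProdEquivProdArrow ι (fun _ => E) (fun _ => Bool)).symm,
      Fintype.sum_prod_type]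
    apply Finset.sum_congr rfl
    intro u _
    have e1 : ∀ x, G u x * ∑ b : ι → Bool, W u b * Q u b x
        = ∑ b : ι → Bool, W u b * (G u x * Q u b x) := by
      intro x
      rw [Finset.mul_sum]
      apply Finset.sum_congr rfl
      intro b _
      ring
    simp only [e1]
    rw [integral_finsetSum]
    · apply Finset.sum_congr rfl
      intro b _
      rw [integral_const_mul]
      have e2 : ∏ i, (if ((Equiv.arrowProdEquivProdArrow ι (fun _ => E) (fun _ => Bool)).symm
          (u, b) i).2 then w ((Equiv.arrowProdEquivProdArrow ι (fun _ => E)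
          (fun _ => Bool)).symm (u, b) i).1 else 1) = W u b := by
        apply Finset.prod_congr rfl
        intro i _
        by_cases hb : b i = true <;> simp [Equiv.arrowProdEquivProdArrow, hb]
      have e3 : ∑ i, σ i ((Equiv.arrowProdEquivProdArrow ι (fun _ => E) (fun _ => Bool)).symm
          (u, b) i) = Nn u + Mm b := by
        show _ = (∑ i, s i (u i)) + ∑ i, if b i then t i else 0
        rw [← Finset.sum_add_distrib]
        apply Finset.sum_congr rfl
        intro i _
        rw [hst i]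
        by_cases hb : b i = true <;> simp [Equiv.arrowProdEquivProdArrow, hb]
      rw [e2, e3]
      congr 1
      have hmeas : Measurable fun x => ∏ l ∈ range (m + 1 + 1),
          f l (S.P ((l : ℤ) * (Nn u + Mm b)) x) :=
        (Nice.prod (range (m + 1 + 1)) fun l _ => (hf l).comp (S.mp _).measurable).1
      rw [← integral_shift S (-((m : ℤ) + 1) * Mm b) hmeas]
      congr 1
      funext x
      rw [Finset.prod_range_succ, mul_comm]
      congr 1
      · show f (m + 1) (S.P (((m + 1 : ℕ) : ℤ) * (Nn u + Mm b)) (S.P (-((m : ℤ) + 1) * Mm b) x))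
          = f (m + 1) (S.P (((m : ℤ) + 1) * Nn u) x)
        rw [← S.add]
        congr 2
        push_cast
        ring
      · apply Finset.prod_congr rfl
        intro l _
        rw [← S.add]
        congr 2
        ring
    · intro b _
      exact ((hG u).mul (hQ u b)).integrable μ |>.const_mul _
  rw [h1]
  -- Cauchy-Schwarz
  have hHm : ∀ u, Measurable fun x => ∑ b : ι → Bool, W u b * Q u b x := by
    intro u
    apply Finset.measurable_fun_sum
    intro b _
    exact (hQ u b).1.const_mul _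
  have hHb : ∀ u x, ‖∑ b : ι → Bool, W u b * Q u b x‖ ≤ (2 : ℝ) ^ n := by
    intro u x
    refine (norm_sum_le _ _).trans ?_
    have : ∀ b ∈ (Finset.univ : Finset (ι → Bool)), ‖W u b * Q u b x‖ ≤ 1 := by
      intro b _
      rw [norm_mul]
      have a1 := hW u b
      have a2 := (hQ u b).2 x
      have a3 := norm_nonneg (W u b)
      have a4 := norm_nonneg (Q u b x)
      nlinarith
    refine (Finset.sum_le_sum this).trans (le_of_eq ?_)
    rw [Finset.sum_const, Finset.card_univ, Fintype.card_fun, Fintype.card_bool, nsmul_eq_mul,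
      mul_one]
    push_cast
    rfl
  have hsq : ∀ u, ‖∫ x, G u x * ∑ b : ι → Bool, W u b * Q u b x ∂μ‖ ^ 2
      ≤ ∫ x, ‖∑ b : ι → Bool, W u b * Q u b x‖ ^ 2 ∂μ := by
    intro u
    have hL2 : MemLp (fun x => ‖∑ b : ι → Bool, W u b * Q u b x‖) 2 μ := by
      apply MemLp.of_bound (hHm u).norm.aestronglyMeasurable ((2 : ℝ) ^ n)
      apply Filter.Eventually.of_forall
      intro x
      rw [norm_norm]
      exact hHb u x
    have a1 : ‖∫ x, G u x * ∑ b : ι → Bool, W u b * Q u b x ∂μ‖
        ≤ ∫ x, ‖∑ b : ι → Bool, W u b * Q u b x‖ ∂μ := by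
      refine (norm_integral_le_integral_norm _).trans ?_
      apply integral_mono_of_nonneg
      · exact Filter.Eventually.of_forall fun x => norm_nonneg _
      · exact (hL2.integrable (by norm_num))
      · apply Filter.Eventually.of_forall
        intro x
        show ‖G u x * ∑ b : ι → Bool, W u b * Q u b x‖ ≤ ‖∑ b : ι → Bool, W u b * Q u b x‖
        rw [norm_mul]
        have := (hG u).2 x
        have := norm_nonneg (∑ b : ι → Bool, W u b * Q u b x)
        nlinarith
    have a2 : (∫ x, ‖∑ b : ι → Bool, W u b * Q u b x‖ ∂μ) ^ 2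
        ≤ ∫ x, ‖∑ b : ι → Bool, W u b * Q u b x‖ ^ 2 ∂μ := by
      have hv := ProbabilityTheory.variance_nonneg
        (fun x => ‖∑ b : ι → Bool, W u b * Q u b x‖) μ
      rw [ProbabilityTheory.variance_eq_sub hL2] at hv
      have e : (∫ x, ((fun x => ‖∑ b : ι → Bool, W u b * Q u b x‖) ^ 2) x ∂μ)
          = ∫ x, ‖∑ b : ι → Bool, W u b * Q u b x‖ ^ 2 ∂μ := rfl
      linarith
    calc _ ≤ (∫ x, ‖∑ b : ι → Bool, W u b * Q u b x‖ ∂μ) ^ 2 :=
          pow_le_pow_left₀ (norm_nonneg _) a1 2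
      _ ≤ _ := a2
  have hCS : ‖∑ u : ι → E, ∫ x, G u x * ∑ b : ι → Bool, W u b * Q u b x ∂μ‖ ^ 2
      ≤ (Fintype.card E : ℝ) ^ n *
        ∑ u : ι → E, ∫ x, ‖∑ b : ι → Bool, W u b * Q u b x‖ ^ 2 ∂μ := by
    calc ‖∑ u : ι → E, ∫ x, G u x * ∑ b : ι → Bool, W u b * Q u b x ∂μ‖ ^ 2
        ≤ (∑ u : ι → E, ‖∫ x, G u x * ∑ b : ι → Bool, W u b * Q u b x ∂μ‖) ^ 2 :=
          pow_le_pow_left₀ (norm_nonneg _) (norm_sum_le _ _) 2
      _ ≤ (Finset.univ : Finset (ι → E)).card *
          ∑ u : ι → E, ‖∫ x, G u x * ∑ b : ι → Bool, W u b * Q u b x ∂μ‖ ^ 2 :=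
          sq_sum_le_card_mul_sum_sq
      _ ≤ _ := by
          rw [Finset.card_univ, Fintype.card_fun]
          push_cast
          apply mul_le_mul_of_nonneg_left (Finset.sum_le_sum fun u _ => hsq u)
          positivity
  -- expansion of the square
  let g : (ι → Bool) → (ι → Bool) → ℕ → X → ℂ := fun b b' l y =>
    f l (S.P (((l : ℤ) - (m + 1)) * Mm b) y) *
      (starRingEnd ℂ) (f l (S.P (((l : ℤ) - (m + 1)) * Mm b') y))
  have hg : ∀ b b' l, Nice (g b b' l) := fun b b' l =>
    ((hf l).comp (S.mp _).measurable).mul ((hf l).comp (S.mp _).measurable).conj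
  let cc : (ι → Bool) → (ι → Bool) → ι → E → ℂ := fun b b' i e =>
    (if b i then w e else 1) * (starRingEnd ℂ) (if b' i then w e else 1)
  have hexp : ((∑ u : ι → E, ∫ x, ‖∑ b : ι → Bool, W u b * Q u b x‖ ^ 2 ∂μ : ℝ) : ℂ)
      = ∑ b : ι → Bool, ∑ b' : ι → Bool, ∑ u : ι → E, (∏ i, cc b b' i (u i)) *
        ∫ x, ∏ l ∈ range (m + 1), g b b' l (S.P ((l : ℤ) * ∑ i, s i (u i)) x) ∂μ := by
    push_cast
    have e1 : ∀ u : ι → E, ((∫ x, ‖∑ b : ι → Bool, W u b * Q u b x‖ ^ 2 ∂μ : ℝ) : ℂ)
        = ∑ b : ι → Bool, ∑ b' : ι → Bool, (∏ i, cc b b' i (u i)) *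
        ∫ x, ∏ l ∈ range (m + 1), g b b' l (S.P ((l : ℤ) * ∑ i, s i (u i)) x) ∂μ := by
      intro u
      rw [← integral_complex_ofReal]
      have e2 : ∀ x, ((‖∑ b : ι → Bool, W u b * Q u b x‖ ^ 2 : ℝ) : ℂ)
          = ∑ b : ι → Bool, ∑ b' : ι → Bool, (∏ i, cc b b' i (u i)) *
            ∏ l ∈ range (m + 1), g b b' l (S.P ((l : ℤ) * ∑ i, s i (u i)) x) := by
        intro x
        push_cast
        rw [← Complex.mul_conj', map_sum, Finset.sum_mul_sum]
        apply Finset.sum_congr rfl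
        intro b _
        apply Finset.sum_congr rfl
        intro b' _
        have e3 : ∏ i, cc b b' i (u i) = W u b * (starRingEnd ℂ) (W u b') := by
          show ∏ i, ((if b i then w (u i) else 1) *
            (starRingEnd ℂ) (if b' i then w (u i) else 1)) = _
          rw [Finset.prod_mul_distrib, map_prod]
        have e4 : ∏ l ∈ range (m + 1), g b b' l (S.P ((l : ℤ) * ∑ i, s i (u i)) x)
            = Q u b x * (starRingEnd ℂ) (Q u b' x) := by
          show _ = (∏ l ∈ range (m + 1),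
            f l (S.P ((l : ℤ) * Nn u + ((l : ℤ) - (m + 1)) * Mm b) x)) *
            (starRingEnd ℂ) (∏ l ∈ range (m + 1),
            f l (S.P ((l : ℤ) * Nn u + ((l : ℤ) - (m + 1)) * Mm b') x))
          rw [map_prod, ← Finset.prod_mul_distrib]
          apply Finset.prod_congr rfl
          intro l _
          show f l (S.P (((l : ℤ) - (m + 1)) * Mm b) (S.P ((l : ℤ) * ∑ i, s i (u i)) x)) *
            (starRingEnd ℂ) (f l (S.P (((l : ℤ) - (m + 1)) * Mm b')
              (S.P ((l : ℤ) * ∑ i, s i (u i)) x))) = _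
          rw [← S.add, ← S.add]
          rw [add_comm (((l : ℤ) - (m + 1)) * Mm b), add_comm (((l : ℤ) - (m + 1)) * Mm b')]
        rw [e3, e4, map_mul]
        ring
      have hint : ∀ b b' : ι → Bool, Integrable (fun x => (∏ i, cc b b' i (u i)) *
            ∏ l ∈ range (m + 1), g b b' l (S.P ((l : ℤ) * ∑ i, s i (u i)) x)) μ := by
        intro b b'
        apply Integrable.const_mul
        exact (Nice.prod _ fun l _ => (hg b b' l).comp (S.mp _).measurable).integrable μ
      simp only [e2]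
      rw [integral_finsetSum]
      · apply Finset.sum_congr rfl
        intro b _
        rw [integral_finsetSum]
        · apply Finset.sum_congr rfl
          intro b' _
          rw [integral_const_mul]
        · intro b' _
          exact hint b b'
      · intro b _
        apply integrable_finsetSum
        intro b' _
        exact hint b b'
    rw [Finset.sum_congr rfl fun u _ => e1 u, Finset.sum_comm]
    apply Finset.sum_congr rfl
    intro b _
    rw [Finset.sum_comm]
  -- the bound for each pair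
  have hpair : ∀ b b' : ι → Bool, ‖∑ u : ι → E, (∏ i, cc b b' i (u i)) *
        ∫ x, ∏ l ∈ range (m + 1), g b b' l (S.P ((l : ℤ) * ∑ i, s i (u i)) x) ∂μ‖
      ≤ (Fintype.card E : ℝ) ^ n * ∏ i, (if (b i = true ∧ b' i = false) then ρ else 1) := by
    intro b b'
    have hm := h.mask ι s hs (g b b') (hg b b') (fun i => b i = true ∧ b' i = false) (cc b b')
      (by
        rintro i ⟨h1, h2⟩
        funext e
        show (if b i then w e else 1) * (starRingEnd ℂ) (if b' i then w e else 1) = w e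
        rw [h1, h2]
        simp)
      (by
        intro i _ e
        show ‖(if b i then w e else 1) * (starRingEnd ℂ) (if b' i then w e else 1)‖ ≤ 1
        rw [norm_mul, Complex.norm_conj]
        have a1 : ‖(if b i then w e else 1)‖ = 1 := by
          split_ifs
          · exact hw e
          · simp
        have a2 : ‖(if b' i then w e else 1)‖ = 1 := by
          split_ifs
          · exact hw e
          · simp
        rw [a1, a2, one_mul])
    refine hm.trans (le_of_eq ?_)
    congr 1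
    rw [Finset.prod_ite, Finset.prod_const, Finset.prod_const_one, mul_one, Fintype.card_subtype]
  have hsum : ∑ b : ι → Bool, ∑ b' : ι → Bool,
      ∏ i, (if (b i = true ∧ b' i = false) then ρ else 1) = (3 + ρ) ^ n := by
    rw [← Fintype.sum_prod_type (f := fun q : (ι → Bool) × (ι → Bool) =>
      ∏ i, (if (q.1 i = true ∧ q.2 i = false) then ρ else 1))]
    rw [← Equiv.sum_comp (Equiv.arrowProdEquivProdArrow ι (fun _ => Bool) (fun _ => Bool))
      (fun q : (ι → Bool) × (ι → Bool) =>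
      ∏ i, (if (q.1 i = true ∧ q.2 i = false) then ρ else 1))]
    have e1 : ∀ q : ι → Bool × Bool,
        ∏ i, (if (((Equiv.arrowProdEquivProdArrow ι (fun _ => Bool) (fun _ => Bool)) q).1 i = true
          ∧ ((Equiv.arrowProdEquivProdArrow ι (fun _ => Bool) (fun _ => Bool)) q).2 i = false)
          then ρ else 1)
        = ∏ i, (fun z : Bool × Bool => if (z.1 = true ∧ z.2 = false) then ρ else 1) (q i) := by
      intro q
      rfl
    rw [Finset.sum_congr rfl fun q _ => e1 q]
    have e2 := Finset.prod_univ_sum (t := fun _ : ι => (Finset.univ : Finset (Bool × Bool)))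
      (f := fun _ z => if (z.1 = true ∧ z.2 = false) then ρ else 1)
    rw [Fintype.piFinset_univ] at e2
    rw [← e2, Finset.prod_const, Finset.card_univ]
    congr 1
    rw [Fintype.sum_prod_type]
    simp
    ring
  have hfin : ∑ u : ι → E, ∫ x, ‖∑ b : ι → Bool, W u b * Q u b x‖ ^ 2 ∂μ
      ≤ (Fintype.card E : ℝ) ^ n * (3 + ρ) ^ n := by
    have a0 : 0 ≤ ∑ u : ι → E, ∫ x, ‖∑ b : ι → Bool, W u b * Q u b x‖ ^ 2 ∂μ :=
      Finset.sum_nonneg fun u _ => integral_nonneg fun x => sq_nonneg _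
    have a1 : ∑ u : ι → E, ∫ x, ‖∑ b : ι → Bool, W u b * Q u b x‖ ^ 2 ∂μ
        = ‖((∑ u : ι → E, ∫ x, ‖∑ b : ι → Bool, W u b * Q u b x‖ ^ 2 ∂μ : ℝ) : ℂ)‖ := by
      rw [Complex.norm_real, Real.norm_of_nonneg a0]
    rw [a1, hexp]
    refine (norm_sum_le _ _).trans ?_
    refine (Finset.sum_le_sum fun b _ => norm_sum_le _ _).trans ?_
    refine (Finset.sum_le_sum fun b _ => Finset.sum_le_sum fun b' _ => hpair b b').trans ?_
    simp only [← Finset.mul_sum]
    rw [hsum]
  have hlast : ‖∑ u : ι → E, ∫ x, G u x * ∑ b : ι → Bool, W u b * Q u b x ∂μ‖ ^ 2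
      ≤ ((Real.sqrt ((3 + ρ) / 4) * Fintype.card (E × Bool)) ^ n) ^ 2 := by
    refine hCS.trans ?_
    have e1 : ((Real.sqrt ((3 + ρ) / 4) * Fintype.card (E × Bool)) ^ n) ^ 2
        = (Fintype.card E : ℝ) ^ n * ((Fintype.card E : ℝ) ^ n * (3 + ρ) ^ n) := by
      rw [← pow_mul, mul_comm n 2, pow_mul, mul_pow, Real.sq_sqrt (by positivity),
        Fintype.card_prod, Fintype.card_bool, ← mul_pow, ← mul_pow]
      congr 1
      push_cast
      ring
    rw [e1]
    exact mul_le_mul_of_nonneg_left hfin (by positivity)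
  exact (pow_le_pow_iff_left₀ (norm_nonneg _) (by positivity) (by norm_num)).1 hlast

end decay

end Pool.Agent.H239.KRec
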