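import Pool.Graph.R_seed8.Helper406.Rec.Neg

/-!
Digit weights that are read off by `k`-dimensional corners.
-/

namespace Pool.Agent.H239.KRec

open Finset

section V
variable {Z R : Type} [AddCommGroup Z] [CommRing R] {k : ℕ} {D : Set Z}

/-- `Φ p n` is a sum of a function of `p` and of functions of the points `p + n e_i`. -/
def InV (k : ℕ) (D : Set Z) (Φ : (Fin k → Z) → Z → R) : Prop :=
  ∃ (F0 : (Fin k → Z) → R) (F : Fin k → (Fin k → Z) → R),
    ∀ p, ∀ n ∈ D, Φ p n = F0 p + ∑ i, F i (p + Pi.single i n)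

lemma InV.zeroPt (G : (Fin k → Z) → R) : InV k D (fun p _ => G p) :=
  ⟨G, fun _ _ => 0, fun p n _ => by simp⟩

lemma InV.point (i : Fin k) (G : (Fin k → Z) → R) :
    InV k D (fun p n => G (p + Pi.single i n)) := by
  classical
  refine ⟨fun _ => 0, fun j q => if j = i then G q else 0, fun p n _ => ?_⟩
  rw [Finset.sum_eq_single i]
  · simp
  · intro j _ hj
    simp [hj]
  · intro h
    exact absurd (Finset.mem_univ _) h

lemma InV.add {Φ Ψ : (Fin k → Z) → Z → R} (h1 : InV k D Φ) (h2 : InV k D Ψ) :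
    InV k D (fun p n => Φ p n + Ψ p n) := by
  obtain ⟨F0, F, hF⟩ := h1
  obtain ⟨G0, G, hG⟩ := h2
  refine ⟨fun p => F0 p + G0 p, fun i q => F i q + G i q, fun p n hn => ?_⟩
  beta_reduce
  rw [hF p n hn, hG p n hn, Finset.sum_add_distrib]
  ring

lemma InV.neg {Φ : (Fin k → Z) → Z → R} (h1 : InV k D Φ) :
    InV k D (fun p n => - Φ p n) := by
  obtain ⟨F0, F, hF⟩ := h1
  refine ⟨fun p => - F0 p, fun i q => - F i q, fun p n hn => ?_⟩
  beta_reduce
  rw [hF p n hn, Finset.sum_neg_distrib]
  ring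

lemma InV.sum {ι : Type} (s : Finset ι) {Φ : ι → (Fin k → Z) → Z → R}
    (h : ∀ j ∈ s, InV k D (Φ j)) : InV k D (fun p n => ∑ j ∈ s, Φ j p n) := by
  classical
  induction s using Finset.induction_on with
  | empty =>
    simpa using (InV.zeroPt (k := k) (D := D) (fun _ => (0 : R)))
  | insert a s ha ih =>
    have h1 := (h a (Finset.mem_insert_self a s)).add
      (ih fun j hj => h j (Finset.mem_insert_of_mem hj))
    obtain ⟨F0, F, hF⟩ := h1
    refine ⟨F0, F, fun p n hn => ?_⟩
    beta_reduce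
    rw [Finset.sum_insert ha]
    exact hF p n hn

lemma InV.congr {Φ Ψ : (Fin k → Z) → Z → R} (h1 : InV k D Φ)
    (h : ∀ p, ∀ n ∈ D, Ψ p n = Φ p n) : InV k D Ψ := by
  obtain ⟨F0, F, hF⟩ := h1
  exact ⟨F0, F, fun p n hn => by rw [h p n hn, hF p n hn]⟩

lemma removeNth_add_single (j : Fin (k + 1)) (i : Fin k) (p : Fin (k + 1) → Z) (n : Z) :
    j.removeNth (p + Pi.single (j.succAbove i) n) = j.removeNth p + Pi.single i n := by
  funext a
  simp only [Fin.removeNth, Pi.add_apply]
  by_cases h : a = i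
  · subst h
    simp
  · have h' : j.succAbove a ≠ j.succAbove i := fun hh => h (Fin.succAbove_right_injective hh)
    rw [Pi.single_eq_of_ne h', Pi.single_eq_of_ne h]

lemma removeNth_add_single_self (j : Fin (k + 1)) (p : Fin (k + 1) → Z) (n : Z) :
    j.removeNth (p + Pi.single j n) = j.removeNth p := by
  funext a
  simp only [Fin.removeNth, Pi.add_apply]
  rw [Pi.single_eq_of_ne (Fin.succAbove_ne j a), add_zero]

/-- multiplying a detected weight by an additive function raises the dimension by one -/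
theorem InV.step {φ : Z → R} (h : InV k D (fun _ n => φ n)) (ψ : Z →+ R) :
    InV (k + 1) D (fun _ n => φ n * ψ n) := by
  obtain ⟨F0, F, hF⟩ := h
  replace hF : ∀ p, ∀ n ∈ D, φ n = F0 p + ∑ i, F i (p + Pi.single i n) := hF
  have key : ∀ (j : Fin (k + 1)), InV (k + 1) D (fun p n => φ n * ψ (p j)) := by
    intro j
    have h1 := (InV.zeroPt (k := k + 1) (D := D)
      (fun p => F0 (j.removeNth p) * ψ (p j))).add
      (InV.sum (Finset.univ : Finset (Fin k)) (fun i _ => InV.point (k := k + 1) (D := D)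
        (j.succAbove i) (fun q => F i (j.removeNth q) * ψ (q j))))
    refine h1.congr fun p n hn => ?_
    rw [hF (j.removeNth p) n hn, add_mul, Finset.sum_mul]
    congr 1
    apply Finset.sum_congr rfl
    intro i _
    rw [removeNth_add_single, Pi.add_apply, Pi.single_eq_of_ne (Fin.succAbove_ne j i).symm,
      add_zero]
  have key2 : InV (k + 1) D (fun p n => φ n * ψ (n + ∑ j, p j)) := by
    have hsum : ∀ (p : Fin (k + 1) → Z) (i : Fin (k + 1)) (n : Z),
        ∑ j, (p + (Pi.single i n : Fin (k + 1) → Z)) j = n + ∑ j, p j := by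
      intro p i n
      simp only [Pi.add_apply, Finset.sum_add_distrib, Finset.sum_pi_single', Finset.mem_univ,
        if_true]
      exact add_comm _ _
    have h1 := (InV.point (k := k + 1) (D := D) 0
      (fun q => F0 ((0 : Fin (k + 1)).removeNth q) * ψ (∑ j, q j))).add
      (InV.sum (Finset.univ : Finset (Fin k)) (fun i _ => InV.point (k := k + 1) (D := D)
        ((0 : Fin (k + 1)).succAbove i)
        (fun q => F i ((0 : Fin (k + 1)).removeNth q) * ψ (∑ j, q j))))
    refine h1.congr fun p n hn => ?_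
    rw [hF ((0 : Fin (k + 1)).removeNth p) n hn, add_mul, Finset.sum_mul]
    congr 1
    · rw [removeNth_add_single_self, hsum]
    · apply Finset.sum_congr rfl
      intro i _
      rw [removeNth_add_single, hsum]
  have h3 := key2.add ((InV.sum (Finset.univ : Finset (Fin (k + 1))) fun j _ => key j).neg)
  refine h3.congr fun p n hn => ?_
  rw [← Finset.mul_sum, ← map_sum, ← sub_eq_add_neg, ← mul_sub, ← map_sub]
  congr 2
  abel

end V

/-! ### the weights -/

/-- digit vectors: the main digit has index `0` -/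
abbrev DV : Type := ℕ → ZMod 9

/-- allowed main digits -/
def DD : Set DV := {n | n 0 = 0 ∨ n 0 = 1 ∨ n 0 = 3 ∨ n 0 = 4}

/-- the weight -/
def wg (r : ℕ) (n : DV) : ZMod 9 := (if n 0 = 4 then 3 else 0) * ∏ c ∈ range r, n (c + 1)

open Pool.Agent.Helper406.Rec (g1 h1 digit_identity)

lemma wg_base : InV 2 DD (fun _ n => wg 0 n) := by
  refine ⟨fun p => - g1 (p 0 0) - h1 (p 0 0) (p 1 0),
    ![fun q => g1 (q 0 0), fun q => h1 (q 0 0) (q 1 0)], fun p n hn => ?_⟩
  rw [Fin.sum_univ_two]
  simp only [wg, Finset.range_zero, Finset.prod_empty, mul_one, Matrix.cons_val_zero,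
    Matrix.cons_val_one]
  rw [← digit_identity (p 0 0) (p 1 0) (n 0) hn]
  simp
  ring

theorem wg_inV (r : ℕ) : InV (r + 2) DD (fun _ n => wg r n) := by
  induction r with
  | zero => exact wg_base
  | succ r ih =>
    have h := ih.step (Pi.evalAddMonoidHom (fun _ : ℕ => ZMod 9) (r + 1))
    refine InV.congr (k := r + 1 + 2) h fun p n _ => ?_
    simp only [wg, Finset.prod_range_succ, Pi.evalAddMonoidHom_apply]
    ring

theorem wg_det (r : ℕ) : ∃ F : Fin (r + 2) → (Fin (r + 2) → DV) → ZMod 9,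
    ∀ p, ∀ n ∈ DD, ∑ i, (F i (p + Pi.single i n) - F i p) = wg r n := by
  obtain ⟨F0, F, hF⟩ := wg_inV r
  replace hF : ∀ p, ∀ n ∈ DD, wg r n = F0 p + ∑ i, F i (p + Pi.single i n) := hF
  refine ⟨F, fun p n hn => ?_⟩
  have h0 := hF p 0 (Or.inl rfl)
  have h1 : wg r 0 = 0 := by
    unfold wg
    rw [if_neg (by decide), zero_mul]
  simp only [h1, Pi.single_zero, add_zero] at h0
  rw [Finset.sum_sub_distrib, hF p n hn]
  linear_combination h0

end Pool.Agent.H239.KRec
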