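import Mathlib

/-!
From finite periodic sets to a measure preserving action (weak limit of empirical measures),
for a countable abelian group.
-/

namespace Pool.Agent.H239.KRec

open MeasureTheory Filter Topology

section lim
variable {G : Type} [AddCommGroup G]

/-- the shift by `v` -/
def shG (v : G) : (G → Bool) ≃ᵐ (G → Bool) where
  toFun ω z := ω (z - v)
  invFun ω z := ω (z + v)
  left_inv ω := by funext z; simp
  right_inv ω := by funext z; simp
  measurable_toFun := by
    apply measurable_pi_lambda
    intro z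
    exact measurable_pi_apply _
  measurable_invFun := by
    apply measurable_pi_lambda
    intro z
    exact measurable_pi_apply _

lemma shG_apply (v : G) (ω : G → Bool) (z : G) : shG v ω z = ω (z - v) := rfl

lemma shG_continuous (v : G) : Continuous (shG v) := by
  apply continuous_pi
  intro z
  exact continuous_apply _

lemma shG_pow (v : G) (n : ℕ) (ω : G → Bool) (z : G) :
    (((shG v).toEquiv : Equiv.Perm (G → Bool)) ^ n) ω z = ω (z - n • v) := by
  induction n generalizing z with
  | zero => simp
  | succ n ih =>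
    rw [pow_succ', Equiv.Perm.mul_apply]
    show (((shG v).toEquiv : Equiv.Perm (G → Bool)) ^ n) ω (z - v) = _
    rw [ih]
    congr 1
    rw [succ_nsmul]
    abel

lemma shG_comm (v w : G) (ω : G → Bool) : shG v (shG w ω) = shG w (shG v ω) := by
  funext z
  rw [shG_apply, shG_apply, shG_apply, shG_apply]
  congr 1
  abel

/-- cylinder -/
def cyG (v : G) : Set (G → Bool) := {ω | ω v = true}

lemma cyG_clopen (v : G) : IsClopen (cyG v) := by
  have : cyG v = (fun ω : G → Bool => ω v) ⁻¹' {true} := rfl
  rw [this]
  exact (isClopen_discrete {true}).preimage (continuous_apply v)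

lemma shG_image (v : G) (n : ℕ) :
    (((shG v).toEquiv : Equiv.Perm (G → Bool)) ^ n) '' cyG 0 = cyG (n • v) := by
  ext ω
  rw [Equiv.image_eq_preimage_symm]
  show (((shG v).toEquiv : Equiv.Perm (G → Bool)) ^ n).symm ω 0 = true ↔ ω (n • v) = true
  have h := shG_pow v n ((((shG v).toEquiv : Equiv.Perm (G → Bool)) ^ n).symm ω) (n • v)
  rw [Equiv.apply_symm_apply, sub_self] at h
  rw [h]

/-- empirical measure -/
noncomputable def emG {Y : Type} [Fintype Y] (f : Y → (G → Bool)) : Measure (G → Bool) :=
  ((Fintype.card Y : ENNReal))⁻¹ • ∑ x, Measure.dirac (f x)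

lemma emG_apply {Y : Type} [Fintype Y] (f : Y → (G → Bool)) {s : Set (G → Bool)}
    (hs : MeasurableSet s) [DecidablePred fun x => f x ∈ s] :
    emG f s = ((Fintype.card Y : ENNReal))⁻¹ * ((Finset.univ.filter fun x => f x ∈ s).card) := by
  unfold emG
  rw [Measure.smul_apply, Measure.finsetSum_apply, smul_eq_mul]
  congr 1
  rw [Finset.card_filter]
  push_cast
  apply Finset.sum_congr rfl
  intro x _
  rw [Measure.dirac_apply' _ hs, Set.indicator_apply]
  simp only [Pi.one_apply]

lemma emG_prob {Y : Type} [Fintype Y] [Nonempty Y] (f : Y → (G → Bool)) :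
    IsProbabilityMeasure (emG f) := by
  classical
  constructor
  rw [emG_apply f MeasurableSet.univ]
  simp only [Set.mem_univ, Finset.filter_true, Finset.card_univ]
  apply ENNReal.inv_mul_cancel
  · exact_mod_cast Fintype.card_ne_zero
  · exact ENNReal.natCast_ne_top _

lemma emG_map {Y : Type} [Fintype Y] [Nonempty Y] (f : Y → (G → Bool)) (v : G) (e : Y ≃ Y)
    (he : ∀ x, shG v (f x) = f (e x)) :
    (emG f).map (shG v) = emG f := by
  classical
  ext s hs
  rw [Measure.map_apply (shG v).measurable hs, emG_apply f hs,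
    emG_apply f ((shG v).measurable hs)]
  congr 2
  apply Finset.card_bij (fun x _ => e x)
  · intro x hx
    simp only [Finset.mem_filter, Finset.mem_univ, true_and, Set.mem_preimage] at hx ⊢
    rwa [he] at hx
  · intro x _ y _ hxy
    exact e.injective hxy
  · intro y hy
    refine ⟨e.symm y, ?_, by simp⟩
    simp only [Finset.mem_filter, Finset.mem_univ, true_and, Set.mem_preimage] at hy ⊢
    rw [he]
    simpa using hy

/-- the coding of a subset of a quotient -/
noncomputable def coG {Y : Type} [AddCommGroup Y] (π : G →+ Y) (A : Y → Prop) (x : Y) :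
    G → Bool := by
  classical
  exact fun z => decide (A (x + π z))

lemma coG_iff {Y : Type} [AddCommGroup Y] (π : G →+ Y) (A : Y → Prop) (x : Y) (z : G) :
    coG π A x z = true ↔ A (x + π z) := by
  classical
  unfold coG
  simp

lemma coG_shift {Y : Type} [AddCommGroup Y] (π : G →+ Y) (A : Y → Prop) (v : G) (x : Y) :
    shG v (coG π A x) = coG π A (x - π v) := by
  funext z
  rw [shG_apply]
  have h1 : coG π A x (z - v) = true ↔ coG π A (x - π v) z = true := by
    rw [coG_iff, coG_iff, map_sub]
    have e1 : x + (π z - π v) = x - π v + π z := by abel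
    rw [e1]
  exact Bool.eq_iff_iff.2 h1

theorem limit_G [Countable G] {k : ℕ} (e : Fin k → G) (S : ℕ → Prop) (c : ENNReal) (hc : 0 < c)
    (h : ∀ K : ℕ, ∃ (Y : Type) (_ : AddCommGroup Y) (_ : Fintype Y) (π : G →+ Y) (A : Y → Prop),
      (c ≤ emG (coG π A) (cyG 0)) ∧
      ∀ n, S n → n < K → ∀ x, ¬ (A x ∧ ∀ l, A (x + π (n • e l)))) :
    ∃ μ : Measure (G → Bool), IsProbabilityMeasure μ ∧
      (∀ v, MeasurePreserving (shG v) μ μ) ∧
      0 < μ (cyG 0) ∧ ∀ n, S n → μ (cyG 0 ∩ ⋂ l, cyG (n • e l)) = 0 := by
  classical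
  choose Y hY1 hY2 π A hA hS using h
  have hprob : ∀ K, IsProbabilityMeasure (emG (coG (π K) (A K))) := fun K => emG_prob _
  let μs : ℕ → ProbabilityMeasure (G → Bool) := fun K => ⟨emG (coG (π K) (A K)), hprob K⟩
  let F : Ultrafilter (ProbabilityMeasure (G → Bool)) := (Filter.hyperfilter ℕ).map μs
  let μ : ProbabilityMeasure (G → Bool) := F.lim
  have hlim : Tendsto μs (Filter.hyperfilter ℕ : Filter ℕ) (𝓝 μ) := F.le_nhds_lim
  have hclopen : ∀ E : Set (G → Bool), IsClopen E →
      Tendsto (fun i ↦ (μs i : Measure (G → Bool)) E) (Filter.hyperfilter ℕ : Filter ℕ)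
        (𝓝 ((μ : Measure (G → Bool)) E)) := by
    intro E hE
    apply ProbabilityMeasure.tendsto_measure_of_null_frontier_of_tendsto' hlim
    rw [hE.frontier_eq]
    simp
  have hinv : ∀ v : G, MeasurePreserving (shG v) (μ : Measure (G → Bool)) μ := by
    intro v
    refine ⟨(shG v).measurable, ?_⟩
    have h1 := ProbabilityMeasure.tendsto_map_of_tendsto_of_continuous μs μ hlim
      (shG_continuous v)
    have h2 : ∀ K, (μs K).map (shG_continuous v).measurable.aemeasurable = μs K := by
      intro K
      apply Subtype.ext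
      show (emG (coG (π K) (A K))).map (shG v) = emG (coG (π K) (A K))
      apply emG_map (coG (π K) (A K)) v (Equiv.subRight (π K v))
      intro x
      rw [coG_shift]
      rfl
    have h3 : Tendsto (fun i ↦ (μs i).map (shG_continuous v).measurable.aemeasurable)
        (Filter.hyperfilter ℕ : Filter ℕ) (𝓝 μ) := by
      simp only [h2]
      exact hlim
    have h4 := tendsto_nhds_unique h1 h3
    have h5 := congrArg (fun ν : ProbabilityMeasure (G → Bool) => (ν : Measure (G → Bool))) h4
    simpa using h5
  refine ⟨(μ : Measure (G → Bool)), inferInstance, hinv, ?_, ?_⟩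
  · have h1 := hclopen (cyG 0) (cyG_clopen 0)
    have h2 : c ≤ (μ : Measure (G → Bool)) (cyG 0) := ge_of_tendsto' h1 fun K => hA K
    exact lt_of_lt_of_le hc h2
  · intro n hn
    have hE : IsClopen (cyG 0 ∩ ⋂ l, cyG (n • e l)) :=
      (cyG_clopen _).inter (isClopen_iInter_of_finite fun l => cyG_clopen _)
    have h1 := hclopen _ hE
    have h2 : ∀ᶠ K in (Filter.hyperfilter ℕ : Filter ℕ),
        (μs K : Measure (G → Bool)) (cyG 0 ∩ ⋂ l, cyG (n • e l)) = 0 := by
      have hev : ∀ᶠ K in (Filter.hyperfilter ℕ : Filter ℕ), n < K :=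
        (Filter.eventually_gt_atTop n).filter_mono Nat.hyperfilter_le_atTop
      filter_upwards [hev] with K hK
      show emG (coG (π K) (A K)) _ = 0
      rw [emG_apply _ hE.1.measurableSet]
      have : (Finset.univ.filter fun x => coG (π K) (A K) x ∈
          (cyG 0 ∩ ⋂ l, cyG (n • e l))) = ∅ := by
        apply Finset.filter_eq_empty_iff.2
        intro x _ hx
        obtain ⟨h0, h1⟩ := hx
        have h0' := (coG_iff (π K) (A K) x 0).1 h0
        rw [map_zero, add_zero] at h0'
        apply hS K n hn hK x
        refine ⟨h0', fun l => ?_⟩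
        have h1' := Set.mem_iInter.1 h1 l
        exact (coG_iff (π K) (A K) x (n • e l)).1 h1'
      rw [this]
      simp
    have h3 : Tendsto (fun i ↦ (μs i : Measure (G → Bool))
        (cyG 0 ∩ ⋂ l, cyG (n • e l))) (Filter.hyperfilter ℕ : Filter ℕ)
        (𝓝 0) := by
      apply tendsto_const_nhds.congr'
      filter_upwards [h2] with K hK
      exact hK.symm
    exact tendsto_nhds_unique h1 h3

end lim

end Pool.Agent.H239.KRec
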