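import Pool.Agent.H239.KRec.PosK
import Pool.Agent.H239.KRec.LimitK

/-!
Positivity: the digit set is a set of `k`-recurrence.
-/

namespace Pool.Agent.H239.KRec

open Finset MeasureTheory
open Pool.Agent.Helper406.Rec2 (Act meas_P)
open Pool.Agent.Helper406.Rec (game wt sd Xv Yv Zv yi zi Xv_sd Xv_sd2 wt_eq sd_vals exists_zeta
  avg ind ind_true ind_false ind_nonneg ind_le_one ind_and
  integral_ind integrable_ind avg_mono avg_const avg_le_one avg_sum avg_mul_left avg_congr
  avg_restrict' Lam)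
open Pool.Agent.Helper868.DHJ (density_hales_jewett LineFree pt)

universe u

section main
variable {X : Type u} [MeasurableSpace X] {μ : Measure X} [IsProbabilityMeasure μ]

/-- the return function -/
noncomputable def nzk (S : Act μ) (A : Set X) (m : ℕ) (N : ℤ) : ℝ :=
  μ.real {x | ∀ l ∈ range (m + 1), S.P ((l : ℤ) * N) x ∈ A}

lemma nzk_nonneg (S : Act μ) (A : Set X) (m : ℕ) (N : ℤ) : 0 ≤ nzk S A m N := measureReal_nonneg

lemma meas_ret (S : Act μ) {A : Set X} (hA : MeasurableSet A) (m : ℕ) (a : ℕ → ℤ) :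
    MeasurableSet {x | ∀ l ∈ range (m + 1), S.P (a l) x ∈ A} := by
  have : {x | ∀ l ∈ range (m + 1), S.P (a l) x ∈ A}
      = ⋂ l ∈ range (m + 1), {x | S.P (a l) x ∈ A} := by
    ext x
    simp
  rw [this]
  exact Finset.measurableSet_biInter _ fun l _ => meas_P μ S hA _

lemma nzk_shift (S : Act μ) {A : Set X} (hA : MeasurableSet A) (m : ℕ) (N b : ℤ) :
    μ.real {x | ∀ l ∈ range (m + 1), S.P ((l : ℤ) * N + b) x ∈ A} = nzk S A m N := by
  have h1 : {x | ∀ l ∈ range (m + 1), S.P ((l : ℤ) * N + b) x ∈ A}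
      = S.P b ⁻¹' {x | ∀ l ∈ range (m + 1), S.P ((l : ℤ) * N) x ∈ A} := by
    ext x
    simp only [Set.mem_ofPred_eq, Set.mem_preimage, S.add]
  rw [h1, nzk]
  unfold Measure.real
  rw [(S.mp b).measure_preimage (meas_ret S hA m _).nullMeasurableSet]

/-- the complex indicator -/
noncomputable def cI (A : Set X) (x : X) : ℂ := ((ind (x ∈ A) : ℝ) : ℂ)

lemma cI_nice {A : Set X} (hA : MeasurableSet A) : Nice (cI A) := by
  refine ⟨?_, fun x => ?_⟩
  · have h : (fun x => ind (x ∈ A)) = A.indicator (fun _ => (1:ℝ)) := by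
      funext x
      by_cases hx : x ∈ A
      · rw [ind_true hx, Set.indicator_of_mem hx]
      · rw [ind_false hx, Set.indicator_of_notMem hx]
    have h2 : Measurable (fun x => ind (x ∈ A)) := by
      rw [h]
      exact measurable_const.indicator hA
    exact Complex.measurable_ofReal.comp h2
  · unfold cI
    rw [Complex.norm_real, Real.norm_of_nonneg (ind_nonneg _)]
    exact ind_le_one _

lemma prod_cI (S : Act μ) (A : Set X) (m : ℕ) (a : ℕ → ℤ) (x : X) :
    ∏ l ∈ range (m + 1), cI A (S.P (a l) x)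
      = ((ind (x ∈ {x | ∀ l ∈ range (m + 1), S.P (a l) x ∈ A}) : ℝ) : ℂ) := by
  by_cases h : x ∈ {x | ∀ l ∈ range (m + 1), S.P (a l) x ∈ A}
  · rw [ind_true h]
    rw [Finset.prod_eq_one]
    · simp
    · intro l hl
      unfold cI
      rw [ind_true (h l hl)]
      simp
  · rw [ind_false h]
    have h' : ∃ l ∈ range (m + 1), S.P (a l) x ∉ A := by
      by_contra hcon
      push Not at hcon
      exact h hcon
    obtain ⟨l, hl, hx⟩ := h'
    rw [Finset.prod_eq_zero hl]
    · simp
    · unfold cI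
      rw [ind_false hx]
      simp

lemma integral_ret (S : Act μ) {A : Set X} (hA : MeasurableSet A) (m : ℕ) (N : ℤ) :
    ∫ x, ∏ l ∈ range (m + 1), cI A (S.P ((l : ℤ) * N) x) ∂μ = ((nzk S A m N : ℝ) : ℂ) := by
  simp only [prod_cI S A m (fun l => (l : ℤ) * N)]
  rw [integral_complex_ofReal, integral_ind μ (meas_ret S hA m _)]
  rfl

/-- decay of the averages of the return function -/
theorem decay_ret (S : Act μ) {A : Set X} (hA : MeasurableSet A) {m : ℕ} {E : Type} [Fintype E]
    [Nonempty E] {w : E → ℂ} {Sig : Set (E → ℤ)} {ρ : ℝ} (h : Decay S m E w Sig ρ)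
    (ι : Type) [Fintype ι] [DecidableEq ι] (s : ι → E → ℤ) (hs : ∀ i, s i ∈ Sig)
    (hz : ∀ u : ι → E, ∏ i, w (u i) ≠ 1 → nzk S A m (∑ i, s i (u i)) = 0) :
    avg (fun u : ι → E => nzk S A m (∑ i, s i (u i))) ≤ ρ ^ (Fintype.card ι) := by
  classical
  have h1 := h ι s hs (fun _ => cI A) (fun _ => cI_nice hA)
  have h2 : ∑ u : ι → E, (∏ i, w (u i)) *
      ∫ x, ∏ l ∈ range (m + 1), cI A (S.P ((l : ℤ) * ∑ i, s i (u i)) x) ∂μ
      = ((∑ u : ι → E, nzk S A m (∑ i, s i (u i)) : ℝ) : ℂ) := by
    push_cast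
    apply Finset.sum_congr rfl
    intro u _
    rw [integral_ret S hA]
    by_cases hw : ∏ i, w (u i) = 1
    · rw [hw, one_mul]
    · rw [hz u hw]
      simp
  rw [h2, Complex.norm_real, Real.norm_of_nonneg
    (Finset.sum_nonneg fun u _ => nzk_nonneg S A m _)] at h1
  unfold avg
  have hc : (0:ℝ) < (Fintype.card (ι → E) : ℝ) := by exact_mod_cast Fintype.card_pos
  rw [div_le_iff₀ hc]
  refine h1.trans (le_of_eq ?_)
  rw [Fintype.card_fun, mul_pow]
  push_cast
  rfl

/-- base point of a line -/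
def bk {m d : ℕ} (φ : Fin d → Option (Fin (m + 1))) (e : Fin d → ℤ) : ℤ :=
  ∑ j, (match φ j with
    | some c => (c : ℤ) * e j
    | none => 0)

/-- step of a line -/
def sk {m d : ℕ} (φ : Fin d → Option (Fin (m + 1))) (e : Fin d → ℤ) : ℤ :=
  ∑ j, (match φ j with
    | some _ => 0
    | none => e j)

lemma line_sum_k {m d : ℕ} (φ : Fin d → Option (Fin (m + 1))) (e : Fin d → ℤ)
    (a : Fin (m + 1)) :
    ∑ j, ((pt φ a j : Fin (m + 1)) : ℤ) * e j = (a : ℤ) * sk φ e + bk φ e := by
  unfold sk bk pt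
  rw [Finset.mul_sum, ← Finset.sum_add_distrib]
  apply Finset.sum_congr rfl
  intro j _
  cases h : φ j with
  | none => simp
  | some c => simp

lemma dens_eq {Y : Type} [Fintype Y] (D : Set Y) :
    Pool.Agent.Helper868.DHJ.dens D = avg (fun z => ind (z ∈ D)) := by
  unfold Pool.Agent.Helper868.DHJ.dens Pool.Agent.Helper868.DHJ.av avg
  rw [Finset.expect_eq_sum_div_card]
  rfl

theorem ip_szem (S : Act μ) {A : Set X} (hA : MeasurableSet A) (δ : ℝ) (hδ : 0 < δ)
    (hμ : δ ≤ μ.real A) (m d : ℕ)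
    (hd : ∀ D : Set (Fin d → Fin (m + 1)), LineFree D → Pool.Agent.Helper868.DHJ.dens D < δ / 2)
    (e : Fin d → ℤ) :
    δ / 2 ≤ ∑ φ : Fin d → Option (Fin (m + 1)), ind (∃ j, φ j = none) *
      nzk S A m (sk φ e) := by
  classical
  set B : (Fin d → Fin (m + 1)) → Set X := fun z => {x | S.P (∑ j, ((z j : Fin (m + 1)) : ℤ) * e j)
    x ∈ A} with hB
  set C : (Fin d → Option (Fin (m + 1))) → Set X := fun φ =>
    {x | ∀ l ∈ range (m + 1), S.P ((l : ℤ) * sk φ e + bk φ e) x ∈ A} with hC
  have hBm : ∀ z, MeasurableSet (B z) := fun z => meas_P μ S hA _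
  have hCm : ∀ φ, MeasurableSet (C φ) := fun φ => meas_ret S hA m _
  have hBμ : ∀ z, μ.real (B z) = μ.real A := by
    intro z
    have h1 := (S.mp (∑ j, ((z j : Fin (m + 1)) : ℤ) * e j)).measure_preimage hA.nullMeasurableSet
    unfold Measure.real
    rw [← h1]
    rfl
  have hCμ : ∀ φ, μ.real (C φ) = nzk S A m (sk φ e) := fun φ => nzk_shift S hA m _ _
  have hpt : ∀ x, avg (fun z : Fin d → Fin (m + 1) => ind (x ∈ B z)) ≤ δ / 2 +
      ∑ φ : Fin d → Option (Fin (m + 1)), ind (∃ j, φ j = none) * ind (x ∈ C φ) := by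
    intro x
    have hnn : ∀ φ : Fin d → Option (Fin (m + 1)), 0 ≤ ind (∃ j, φ j = none) * ind (x ∈ C φ) :=
      fun φ => mul_nonneg (ind_nonneg _) (ind_nonneg _)
    by_cases hx : δ / 2 ≤ avg (fun z : Fin d → Fin (m + 1) => ind (x ∈ B z))
    · have h0 : ¬ LineFree {z | x ∈ B z} := by
        intro hlf
        have := hd _ hlf
        rw [dens_eq] at this
        have e1 : avg (fun z : Fin d → Fin (m + 1) => ind (z ∈ {z | x ∈ B z}))
          = avg (fun z : Fin d → Fin (m + 1) => ind (x ∈ B z)) := rfl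
        linarith
      unfold LineFree at h0
      push Not at h0
      obtain ⟨φ, hφ, hL⟩ := h0
      have h1 : x ∈ C φ := by
        intro l hl
        rw [Finset.mem_range] at hl
        have := hL ⟨l, hl⟩
        simp only [hB, Set.mem_ofPred_eq, line_sum_k] at this
        exact this
      have h3 : ind (∃ j, φ j = none) * ind (x ∈ C φ) ≤
          ∑ φ : Fin d → Option (Fin (m + 1)), ind (∃ j, φ j = none) * ind (x ∈ C φ) :=
        Finset.single_le_sum (f := fun φ : Fin d → Option (Fin (m + 1)) =>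
          ind (∃ j, φ j = none) * ind (x ∈ C φ)) (fun φ _ => hnn φ) (Finset.mem_univ φ)
      rw [ind_true h1, ind_true hφ] at h3
      have h4 : avg (fun z : Fin d → Fin (m + 1) => ind (x ∈ B z)) ≤ 1 :=
        avg_le_one fun z => ind_le_one _
      linarith
    · push Not at hx
      have := Finset.sum_nonneg (s := Finset.univ) fun φ _ => hnn φ
      linarith
  have hi1 : Integrable (fun x => avg (fun z : Fin d → Fin (m + 1) => ind (x ∈ B z))) μ := by
    unfold avg
    apply Integrable.div_const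
    apply integrable_finsetSum
    intro z _
    exact integrable_ind μ (hBm z)
  have hi2 : Integrable (fun x => δ / 2 +
      ∑ φ : Fin d → Option (Fin (m + 1)), ind (∃ j, φ j = none) * ind (x ∈ C φ)) μ := by
    apply Integrable.add (integrable_const _)
    apply integrable_finsetSum
    intro φ _
    exact (integrable_ind μ (hCm φ)).const_mul _
  have h1 := integral_mono hi1 hi2 hpt
  have e1 : ∫ x, avg (fun z : Fin d → Fin (m + 1) => ind (x ∈ B z)) ∂μ = μ.real A := by
    unfold avg
    rw [integral_div, integral_finsetSum]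
    · have : ∀ z ∈ (Finset.univ : Finset (Fin d → Fin (m + 1))),
          ∫ x, ind (x ∈ B z) ∂μ = μ.real A := by
        intro z _
        rw [integral_ind μ (hBm z), hBμ]
      rw [Finset.sum_congr rfl this]
      exact avg_const (Ω := Fin d → Fin (m + 1)) (μ.real A)
    · intro z _
      exact integrable_ind μ (hBm z)
  have e2 : ∫ x, (δ / 2 + ∑ φ : Fin d → Option (Fin (m + 1)),
      ind (∃ j, φ j = none) * ind (x ∈ C φ)) ∂μ
      = δ / 2 + ∑ φ : Fin d → Option (Fin (m + 1)), ind (∃ j, φ j = none) *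
          nzk S A m (sk φ e) := by
    rw [integral_add (integrable_const _), integral_finsetSum]
    · congr 1
      · simp
      · apply Finset.sum_congr rfl
        intro φ _
        rw [integral_const_mul, integral_ind μ (hCm φ), hCμ]
    · intro φ _
      exact (integrable_ind μ (hCm φ)).const_mul _
    · apply integrable_finsetSum
      intro φ _
      exact (integrable_ind μ (hCm φ)).const_mul _
  rw [e1, e2] at h1
  linarith

/-- elements of the digit set from digits at distinct positions -/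
lemma inK_of (r : ℕ) {ι : Type} [Fintype ι] [DecidableEq ι] (g : ι → ℕ)
    (hg : Function.Injective g) (s : ι → ℕ → ℕ)
    (hs : ∀ i, (s i 0 = 0 ∨ s i 0 = 1 ∨ s i 0 = 3 ∨ s i 0 = 4) ∧ ∀ c, s i (c + 1) ≤ 1)
    (h3 : ¬ 3 ∣ (Finset.univ.filter
      (fun i => s i 0 = 4 ∧ ∀ c ∈ range r, s i (c + 1) = 1)).card) :
    InK r (∑ i, ∑ c ∈ range (r + 1), s i c * Lam (ix r (g i) c)) := by
  classical
  refine ⟨Finset.univ.image g, Function.extend g s 0, ?_, ?_, ?_⟩
  · intro i hi
    obtain ⟨p, _, rfl⟩ := Finset.mem_image.1 hi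
    rw [hg.extend_apply]
    exact hs p
  · have h1 : (Finset.univ.image g).filter (fun i => Function.extend g s 0 i 0 = 4 ∧
        ∀ c ∈ range r, Function.extend g s 0 i (c + 1) = 1)
        = (Finset.univ.filter (fun i => s i 0 = 4 ∧ ∀ c ∈ range r, s i (c + 1) = 1)).image g := by
      ext k
      simp only [Finset.mem_filter, Finset.mem_image, Finset.mem_univ, true_and]
      constructor
      · rintro ⟨⟨p, rfl⟩, h⟩
        rw [hg.extend_apply] at h
        exact ⟨p, h, rfl⟩
      · rintro ⟨p, h, rfl⟩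
        refine ⟨⟨p, rfl⟩, ?_⟩
        rw [hg.extend_apply]; exact h
    rw [h1, Finset.card_image_of_injective _ hg]
    exact h3
  · rw [Finset.sum_image (fun a _ b _ h => hg h)]
    apply Finset.sum_congr rfl
    intro p _
    rw [hg.extend_apply]

theorem positivity_K {X : Type u} [MeasurableSpace X] (μ : Measure X) [IsProbabilityMeasure μ]
    (S : Act μ) {A : Set X} (hA : MeasurableSet A) (hpos : 0 < μ A) (r : ℕ) :
    ∃ N : ℕ, InK r N ∧ 0 < nzk S A (r + 2) N := by
  classical
  by_contra hcon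
  push Not at hcon
  have hzero : ∀ N : ℕ, InK r N → nzk S A (r + 2) N = 0 := fun N hN =>
    le_antisymm (hcon N hN) (nzk_nonneg S A _ _)
  set δ : ℝ := μ.real A with hδdef
  have hδ : 0 < δ := by
    rw [hδdef, Measure.real]
    exact ENNReal.toReal_pos hpos.ne' (measure_ne_top μ A)
  obtain ⟨ζ, hζ, hn⟩ := exists_zeta
  have hζ3 : ζ ^ 3 = 1 := by linear_combination (ζ - 1) * hζ
  obtain ⟨E, hE1, hE2, dg, ρ, hρ0, hρ1, h0, h1', hdec⟩ := exists_alphabet ζ hζ hn r
  obtain ⟨d, hd⟩ := density_hales_jewett (Fin (r + 2 + 1)) (δ / 2) (by linarith)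
  set cst : ℝ := δ / 2 / ((r : ℝ) + 4) ^ d with hcst
  have hcpos : 0 < cst := by positivity
  obtain ⟨m, hm⟩ : ∃ m : ℕ, ρ ^ m < cst := exists_pow_lt_of_lt_one hcpos hρ1
  let idx : Fin d × Fin m → ℕ := fun q => (finProdFinEquiv q : ℕ)
  have hidx : Function.Injective idx := by
    intro q q' hqr
    exact finProdFinEquiv.injective (Fin.ext hqr)
  let cval : ℕ → E → ℕ := fun i e => ∑ c ∈ range (r + 1), dg e c * Lam (ix r i c)
  let ev : (Fin d × Fin m → E) → Fin d → ℤ := fun t j =>
    ∑ i : Fin m, ((cval (idx (j, i)) (t (j, i)) : ℕ) : ℤ)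
  have h1 : ∀ t, δ / 2 ≤ ∑ φ : Fin d → Option (Fin (r + 2 + 1)), ind (∃ j, φ j = none) *
      nzk S A (r + 2) (sk φ (ev t)) := by
    intro t
    exact ip_szem S hA δ hδ le_rfl (r + 2) d (fun D hD => hd (Fin d) (by simp) D hD) (ev t)
  have h2 : δ / 2 ≤ ∑ φ : Fin d → Option (Fin (r + 2 + 1)), ind (∃ j, φ j = none) *
      avg (fun t => nzk S A (r + 2) (sk φ (ev t))) := by
    have h3 : avg (fun _ : Fin d × Fin m → E => δ / 2) ≤
        avg (fun t => ∑ φ : Fin d → Option (Fin (r + 2 + 1)), ind (∃ j, φ j = none) *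
      nzk S A (r + 2) (sk φ (ev t))) := avg_mono h1
    rw [avg_const, avg_sum] at h3
    refine h3.trans (le_of_eq ?_)
    apply Finset.sum_congr rfl; intro φ _
    rw [avg_mul_left]
  obtain ⟨φ, hφ⟩ : ∃ φ : Fin d → Option (Fin (r + 2 + 1)), cst ≤ ind (∃ j, φ j = none) *
      avg (fun t => nzk S A (r + 2) (sk φ (ev t))) := by
    by_contra hcon2
    push Not at hcon2
    have h3 : ∑ φ : Fin d → Option (Fin (r + 2 + 1)), ind (∃ j, φ j = none) *
      avg (fun t => nzk S A (r + 2) (sk φ (ev t))) <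
        ∑ _φ : Fin d → Option (Fin (r + 2 + 1)), cst :=
      Finset.sum_lt_sum_of_nonempty Finset.univ_nonempty fun φ _ => hcon2 φ
    have h4 : ∑ _φ : Fin d → Option (Fin (r + 2 + 1)), cst = δ / 2 := by
      rw [Finset.sum_const, Finset.card_univ, nsmul_eq_mul, Fintype.card_fun]
      simp only [Fintype.card_option, Fintype.card_fin]
      rw [hcst]
      push_cast
      have : (r : ℝ) + 2 + 1 + 1 = r + 4 := by ring
      rw [this]
      field_simp
    linarith
  have hline : ∃ j, φ j = none := by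
    by_contra hno
    rw [ind_false hno, zero_mul] at hφ
    linarith
  rw [ind_true hline, one_mul] at hφ
  obtain ⟨j0, hj0⟩ := hline
  have hst : ∀ t, sk φ (ev t) = ∑ q : {q : Fin d × Fin m // φ q.1 = none},
      ((cval (idx q) (t q) : ℕ) : ℤ) := by
    intro t
    unfold sk
    have e1 : ∑ q : {q : Fin d × Fin m // φ q.1 = none},
        ((cval (idx q) (t q) : ℕ) : ℤ)
        = ∑ q : Fin d × Fin m, if φ q.1 = none then
          ((cval (idx q) (t q) : ℕ) : ℤ) else 0 := by
      rw [← Finset.sum_filter]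
      exact (Finset.sum_subtype (p := fun q : Fin d × Fin m => φ q.1 = none) _
        (by intro x; simp) (fun q : Fin d × Fin m =>
          ((cval (idx q) (t q) : ℕ) : ℤ))).symm
    rw [e1, Fintype.sum_prod_type]
    apply Finset.sum_congr rfl; intro j _
    cases hj : φ j with
    | some a => simp [hj]
    | none => simp [hj, ev]
  have h5 : avg (fun t => nzk S A (r + 2) (sk φ (ev t)))
      = avg (fun t : {q : Fin d × Fin m // φ q.1 = none} → E =>
        nzk S A (r + 2) (∑ q : {q : Fin d × Fin m // φ q.1 = none},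
          ((cval (idx q) (t q) : ℕ) : ℤ))) := by
    rw [← avg_restrict' (fun q : Fin d × Fin m => φ q.1 = none)
      (fun t : {q : Fin d × Fin m // φ q.1 = none} → E =>
        nzk S A (r + 2) (∑ q : {q : Fin d × Fin m // φ q.1 = none},
          ((cval (idx q) (t q) : ℕ) : ℤ)))]
    apply avg_congr; intro t
    rw [hst]
  have h6 := decay_ret S hA (hdec X μ S) {q : Fin d × Fin m // φ q.1 = none}
    (fun q e => ((cval (idx q) e : ℕ) : ℤ)) (by
      intro q
      refine ⟨fun c => (Lam (ix r (idx q) c) : ℤ), ?_⟩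
      funext e
      show ((∑ c ∈ range (r + 1), dg e c * Lam (ix r (idx q) c) : ℕ) : ℤ) = _
      push_cast
      rfl) ?_
  · rw [← h5] at h6
    have h7 : m ≤ Fintype.card {q : Fin d × Fin m // φ q.1 = none} := by
      have : Fintype.card (Fin m) ≤ Fintype.card {q : Fin d × Fin m // φ q.1 = none} := by
        apply Fintype.card_le_of_injective
          (fun i : Fin m => (⟨(j0, i), hj0⟩ : {q : Fin d × Fin m // φ q.1 = none}))
        intro a b hab
        simpa using hab
      simpa using this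
    have h8 : ρ ^ (Fintype.card {q : Fin d × Fin m // φ q.1 = none}) ≤ ρ ^ m :=
      pow_le_pow_of_le_one hρ0 hρ1.le h7
    linarith
  · intro u hu
    have hprod : ∏ q, wF ζ r dg (u q) = ζ ^ (Finset.univ.filter
        (fun q => dg (u q) 0 = 4 ∧ ∀ c ∈ range r, dg (u q) (c + 1) = 1)).card := by
      have hw : ∀ q : {q : Fin d × Fin m // φ q.1 = none}, wF ζ r dg (u q)
          = if (dg (u q) 0 = 4 ∧ ∀ c ∈ range r, dg (u q) (c + 1) = 1) then ζ else 1 := by
        intro q
        unfold wF Full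
        split_ifs <;> rfl
      rw [Finset.prod_congr rfl fun q _ => hw q, Finset.prod_ite, Finset.prod_const,
        Finset.prod_const_one, mul_one]
    have h10 := inK_of r (fun q : {q : Fin d × Fin m // φ q.1 = none} => idx q)
      (fun a b hab => Subtype.ext (hidx hab)) (fun q => dg (u q))
      (fun q => ⟨h0 _, h1' _⟩) (by
        intro hdiv
        apply hu
        rw [hprod]
        obtain ⟨k, hk⟩ := hdiv
        rw [hk, pow_mul, hζ3, one_pow])
    have h11 := hzero _ h10
    push_cast at h11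
    show nzk S A (r + 2) (∑ q : {q : Fin d × Fin m // φ q.1 = none},
      ((∑ c ∈ range (r + 1), dg (u q) c * Lam (ix r (idx q) c) : ℕ) : ℤ)) = 0
    push_cast
    exact h11

end main

end Pool.Agent.H239.KRec
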