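import Pool.Agent.H239.KRec.Det

/-!
The finite periodic sets without `k`-dimensional corners of side in the digit set.
-/

namespace Pool.Agent.H239.KRec

open Finset
open Pool.Agent.Helper406.Rec (avg ind ind_true ind_false ind_nonneg ind_le_one avg_mono avg_const
  avg_sum avg_sub avg_pi_prod avg_congr avg_mul_left
  Lam Lam_pos Lam_dvd Lam_mono le_Lam Rr Rr_le dig GoodAt dig_add dig_mod sum_zmod count_bad)

/-- position of the digit `c` of the block `i` -/
def ix (r i c : ℕ) : ℕ := (r + 2) + i * (r + 1) + c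

lemma le_ix (r i c : ℕ) : i < ix r i c := by
  unfold ix
  nlinarith [Nat.zero_le (i * r)]

/-- the digit set -/
def InK (r N : ℕ) : Prop :=
  ∃ (J : Finset ℕ) (s : ℕ → ℕ → ℕ),
    (∀ i ∈ J, (s i 0 = 0 ∨ s i 0 = 1 ∨ s i 0 = 3 ∨ s i 0 = 4) ∧ ∀ c, s i (c + 1) ≤ 1) ∧
    ¬ 3 ∣ (J.filter (fun i => s i 0 = 4 ∧ ∀ c ∈ range r, s i (c + 1) = 1)).card ∧
    N = ∑ i ∈ J, ∑ c ∈ range (r + 1), s i c * Lam (ix r i c)

lemma inK_pos {r N : ℕ} (h : InK r N) : 0 < N := by
  obtain ⟨J, s, _, h2, h3⟩ := h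
  rcases Nat.eq_zero_or_pos N with h0 | h0
  · exfalso
    rw [h0] at h3
    have h4 : J.filter (fun i => s i 0 = 4 ∧ ∀ c ∈ range r, s i (c + 1) = 1) = ∅ := by
      apply Finset.filter_eq_empty_iff.2
      rintro i hi ⟨hs, _⟩
      have h5 := (Finset.sum_eq_zero_iff.1 h3.symm) i hi
      have h6 := (Finset.sum_eq_zero_iff.1 h5) 0 (by simp)
      have h7 := Lam_pos (ix r i 0)
      rw [hs] at h6
      omega
    rw [h4] at h2
    simp at h2
  · exact h0

/-- normal form of the elements of the digit set below `M` -/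
lemma inK_normal {r n M : ℕ} (hn : InK r n) (hM : n < M) :
    ∃ s : ℕ → ℕ → ℕ,
      (∀ i, (s i 0 = 0 ∨ s i 0 = 1 ∨ s i 0 = 3 ∨ s i 0 = 4) ∧ ∀ c, s i (c + 1) ≤ 1) ∧
      ¬ 3 ∣ ((range M).filter (fun i => s i 0 = 4 ∧ ∀ c ∈ range r, s i (c + 1) = 1)).card ∧
      n = ∑ i ∈ range M, ∑ c ∈ range (r + 1), s i c * Lam (ix r i c) := by
  classical
  obtain ⟨J, s, hs, h3, hsum⟩ := hn
  have hbig : ∀ i ∈ J, M ≤ i → ∀ c ∈ range (r + 1), s i c = 0 := by
    intro i hi hMi c hc
    by_contra hne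
    have h1 : s i c * Lam (ix r i c) ≤ n := by
      rw [hsum]
      refine le_trans ?_ (Finset.single_le_sum
        (f := fun i => ∑ c ∈ range (r + 1), s i c * Lam (ix r i c)) (fun _ _ => Nat.zero_le _) hi)
      exact Finset.single_le_sum (f := fun c => s i c * Lam (ix r i c))
        (fun _ _ => Nat.zero_le _) hc
    have h2 : Lam (ix r i c) ≤ s i c * Lam (ix r i c) :=
      Nat.le_mul_of_pos_left _ (Nat.pos_of_ne_zero hne)
    have h4 := le_Lam (ix r i c)
    have h5 := le_ix r i c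
    omega
  refine ⟨fun i c => if i ∈ J then s i c else 0, ?_, ?_, ?_⟩
  · intro i
    by_cases hi : i ∈ J
    · simp only [hi, if_true]; exact hs i hi
    · simp [hi]
  · have : (range M).filter (fun i => (if i ∈ J then s i 0 else 0) = 4 ∧
        ∀ c ∈ range r, (if i ∈ J then s i (c + 1) else 0) = 1)
        = J.filter (fun i => s i 0 = 4 ∧ ∀ c ∈ range r, s i (c + 1) = 1) := by
      ext i
      simp only [Finset.mem_filter, Finset.mem_range]
      constructor
      · rintro ⟨_, h, h'⟩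
        by_cases hi : i ∈ J
        · simp only [hi, if_true] at h h'
          exact ⟨hi, h, h'⟩
        · simp [hi] at h
      · rintro ⟨hi, h, h'⟩
        refine ⟨?_, by simp [hi, h], by simpa [hi] using h'⟩
        by_contra hcon
        have := hbig i hi (by omega) 0 (by simp)
        omega
    rw [this]; exact h3
  · rw [hsum]
    have h5 : ∑ i ∈ range M, ∑ c ∈ range (r + 1), (if i ∈ J then s i c else 0) * Lam (ix r i c)
        = ∑ i ∈ (range M).filter (fun i => i ∈ J),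
          ∑ c ∈ range (r + 1), s i c * Lam (ix r i c) := by
      rw [Finset.sum_filter]
      apply Finset.sum_congr rfl; intro i _
      by_cases hi : i ∈ J <;> simp [hi]
    rw [h5]
    symm
    apply Finset.sum_subset
    · intro i hi
      exact (Finset.mem_filter.1 hi).2
    · intro i hi hni
      have h6 : M ≤ i := by
        by_contra hne
        exact hni (Finset.mem_filter.2 ⟨Finset.mem_range.2 (by omega), hi⟩)
      apply Finset.sum_eq_zero
      intro c hc
      rw [hbig i hi h6 c hc, zero_mul]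

/-- flattening of the two-parameter digits -/
def flat (r : ℕ) (s : ℕ → ℕ → ℕ) (j : ℕ) : ℕ :=
  if j < r + 2 then 0 else s ((j - (r + 2)) / (r + 1)) ((j - (r + 2)) % (r + 1))

lemma flat_ix (r : ℕ) (s : ℕ → ℕ → ℕ) (i c : ℕ) (hc : c < r + 1) :
    flat r s (ix r i c) = s i c := by
  unfold flat ix
  rw [if_neg (by omega)]
  have h1 : r + 2 + i * (r + 1) + c - (r + 2) = c + (r + 1) * i := by
    rw [Nat.mul_comm (r + 1) i]; omega
  rw [h1, Nat.add_mul_div_left _ _ (by omega : 0 < r + 1), Nat.div_eq_of_lt hc, zero_add,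
    Nat.add_mul_mod_self_left, Nat.mod_eq_of_lt hc]

lemma sum_flat (r : ℕ) (s : ℕ → ℕ → ℕ) (M : ℕ) :
    ∑ j ∈ range (ix r M 0), flat r s j * Lam j
      = ∑ i ∈ range M, ∑ c ∈ range (r + 1), s i c * Lam (ix r i c) := by
  induction M with
  | zero =>
    rw [Finset.range_zero, Finset.sum_empty]
    apply Finset.sum_eq_zero
    intro j hj
    rw [Finset.mem_range] at hj
    unfold ix at hj
    unfold flat
    rw [if_pos (by omega), zero_mul]
  | succ M ih =>
    have h1 : ix r (M + 1) 0 = ix r M 0 + (r + 1) := by unfold ix; ring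
    rw [h1, Finset.sum_range_add, ih,
      Finset.sum_range_succ (fun i => ∑ c ∈ range (r + 1), s i c * Lam (ix r i c)) M]
    congr 1
    apply Finset.sum_congr rfl
    intro c hc
    rw [Finset.mem_range] at hc
    have h2 : ix r M 0 + c = ix r M c := by unfold ix; ring
    rw [h2, flat_ix r s M c hc]

/-- all relevant positions are good -/
def GoodK (r K x : ℕ) : Prop := ∀ j, r + 2 ≤ j → j < K → GoodAt j x

lemma avg_bad_at (K i : ℕ) (hi : i < K) :
    avg (fun x : ZMod (Lam K) => ind (¬ GoodAt i x.val)) ≤ (1 / 8) * (1 / 2 : ℝ) ^ i := by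
  obtain ⟨u, hu⟩ := Lam_dvd hi
  have hL := Lam_pos i
  have hRL : Rr i ≤ Lam i := by
    have h3 := Rr_le i
    have h4 : 1 ≤ 2 ^ i := Nat.one_le_two_pow
    nlinarith
  unfold avg
  rw [sum_zmod (Lam K) (fun k => ind (¬ GoodAt i k)), ZMod.card]
  have h5 : Lam K = Lam i * (9 * u) := by rw [hu]; ring
  have h6 : ∑ k ∈ range (Lam K), ind (¬ GoodAt i k) = ((9 * u : ℕ) : ℝ) * Rr i := by
    rw [h5]
    exact count_bad (Lam i) (9 * u) (Rr i) hRL
  rw [h6]
  have hu0 : 0 < 9 * u := by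
    rcases Nat.eq_zero_or_pos u with h | h
    · have := Lam_pos K
      rw [h5, h] at this
      simp at this
    · omega
  have h7 : (Lam K : ℝ) = (Lam i : ℝ) * ((9 * u : ℕ) : ℝ) := by
    rw [h5]; push_cast; ring
  rw [h7]
  have hLr : (0:ℝ) < Lam i := by exact_mod_cast hL
  have hur : (0:ℝ) < ((9 * u : ℕ) : ℝ) := by exact_mod_cast hu0
  rw [div_le_iff₀ (by positivity)]
  have h8 : (8:ℝ) * 2 ^ i * Rr i ≤ Lam i := by exact_mod_cast Rr_le i
  have h9 : (1 / 2 : ℝ) ^ i * 2 ^ i = 1 := by rw [← mul_pow]; norm_num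
  have h10 : (Rr i : ℝ) ≤ 1 / 8 * (1 / 2) ^ i * Lam i := by
    have : (1 / 8 * (1 / 2 : ℝ) ^ i) * (8 * 2 ^ i * Rr i) ≤ (1 / 8 * (1 / 2 : ℝ) ^ i) * Lam i :=
      mul_le_mul_of_nonneg_left h8 (by positivity)
    have e : (1 / 8 * (1 / 2 : ℝ) ^ i) * (8 * 2 ^ i * Rr i) = Rr i := by
      calc _ = ((1 / 2 : ℝ) ^ i * 2 ^ i) * Rr i := by ring
        _ = Rr i := by rw [h9, one_mul]
    rw [e] at this
    exact this
  calc ((9 * u : ℕ) : ℝ) * Rr i ≤ ((9 * u : ℕ) : ℝ) * (1 / 8 * (1 / 2) ^ i * Lam i) :=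
        mul_le_mul_of_nonneg_left h10 hur.le
    _ = 1 / 8 * (1 / 2) ^ i * (↑(Lam i) * ↑(9 * u)) := by ring

lemma geom_tail (a K : ℕ) : ∑ i ∈ Ico a K, (1 / 2 : ℝ) ^ i ≤ 2 * (1 / 2 : ℝ) ^ a := by
  have h : ∀ n, ∑ i ∈ Ico a (a + n), (1 / 2 : ℝ) ^ i = 2 * (1 / 2 : ℝ) ^ a - 2 * (1 / 2) ^ (a + n) := by
    intro n
    induction n with
    | zero => simp
    | succ n ih =>
      rw [← add_assoc, Finset.sum_Ico_succ_top (by omega), ih, pow_succ]
      ring
  by_cases hK : a ≤ K
  · obtain ⟨n, rfl⟩ := Nat.exists_eq_add_of_le hK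
    rw [h n]
    have : (0:ℝ) ≤ 2 * (1 / 2) ^ (a + n) := by positivity
    linarith
  · rw [Finset.Ico_eq_empty (by omega), Finset.sum_empty]
    positivity

lemma avg_bad_K (r K : ℕ) :
    avg (fun x : ZMod (Lam K) => ind (¬ GoodK r K x.val)) ≤ (1 / 4) * (1 / 2 : ℝ) ^ (r + 2) := by
  classical
  have h1 : ∀ x : ZMod (Lam K), ind (¬ GoodK r K x.val) ≤
      ∑ i ∈ Ico (r + 2) K, ind (¬ GoodAt i x.val) := by
    intro x
    by_cases h : GoodK r K x.val
    · rw [ind_false (not_not.2 h)]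
      exact Finset.sum_nonneg fun i _ => ind_nonneg _
    · have h' := h
      unfold GoodK at h'
      push Not at h'
      obtain ⟨i, hi, hi', hb⟩ := h'
      rw [ind_true h, ← ind_true hb]
      exact Finset.single_le_sum (f := fun i => ind (¬ GoodAt i x.val))
        (fun i _ => ind_nonneg _) (Finset.mem_Ico.2 ⟨hi, hi'⟩)
  refine (avg_mono h1).trans ?_
  rw [avg_sum]
  have h2 : ∑ i ∈ Ico (r + 2) K, avg (fun x : ZMod (Lam K) => ind (¬ GoodAt i x.val))
      ≤ ∑ i ∈ Ico (r + 2) K, (1 / 8) * (1 / 2 : ℝ) ^ i := by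
    apply Finset.sum_le_sum
    intro i hi
    exact avg_bad_at K i (Finset.mem_Ico.1 hi).2
  refine h2.trans ?_
  rw [← Finset.mul_sum]
  have := geom_tail (r + 2) K
  linarith

lemma avg_coord {k : ℕ} {Ω : Type} [Fintype Ω] [Nonempty Ω] (l : Fin k) (h : Ω → ℝ) :
    avg (fun x : Fin k → Ω => h (x l)) = avg h := by
  classical
  have h1 := avg_pi_prod (Ω := Ω) (n := Fin k) (fun a t => if a = l then h t else 1)
  have h2 : (fun x : Fin k → Ω => ∏ a, (if a = l then h (x a) else 1)) = fun x => h (x l) := by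
    funext x
    rw [Finset.prod_ite_eq']
    simp
  rw [h2] at h1
  rw [h1, Finset.prod_eq_single l]
  · simp
  · intro b _ hb
    simp only [hb, if_false]
    exact avg_const 1
  · intro h; exact absurd (Finset.mem_univ _) h

/-- the digit vector of block `i` -/
def dv (r i x : ℕ) : DV := fun c => if c < r + 1 then dig (ix r i c) x else 0

/-- the colour of a point -/
def col (r M : ℕ) (F : Fin (r + 2) → (Fin (r + 2) → DV) → ZMod 9) (l : Fin (r + 2))
    (x : Fin (r + 2) → ZMod (Lam (ix r M 0))) : ZMod 9 :=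
  ∑ i ∈ range M, F l (fun a => dv r i (x a).val)

/-- the sets -/
def AK (r M : ℕ) (F : Fin (r + 2) → (Fin (r + 2) → DV) → ZMod 9) (g : Fin (r + 2) → ZMod 9)
    (x : Fin (r + 2) → ZMod (Lam (ix r M 0))) : Prop :=
  (∀ a, GoodK r (ix r M 0) (x a).val) ∧ ∀ l, col r M F l x = g l

lemma exists_dense_K (r M : ℕ) (F : Fin (r + 2) → (Fin (r + 2) → DV) → ZMod 9) :
    ∃ g : Fin (r + 2) → ZMod 9,
      1 / 2 / (9 : ℝ) ^ (r + 2) ≤ avg (fun x => ind (AK r M F g x)) := by
  classical
  by_contra hcon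
  push Not at hcon
  set K := ix r M 0 with hK
  have h1 : ∀ x : Fin (r + 2) → ZMod (Lam K), 1 - ∑ a, ind (¬ GoodK r K (x a).val)
      ≤ ∑ g : Fin (r + 2) → ZMod 9, ind (AK r M F g x) := by
    intro x
    by_cases ha : ∀ a, GoodK r K (x a).val
    · have h2 : AK r M F (fun l => col r M F l x) x := ⟨ha, fun l => rfl⟩
      have h3 := Finset.single_le_sum (f := fun g : Fin (r + 2) → ZMod 9 => ind (AK r M F g x))
        (fun p _ => ind_nonneg _) (Finset.mem_univ (fun l => col r M F l x))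
      beta_reduce at h3
      rw [ind_true h2] at h3
      have h4 : 0 ≤ ∑ a, ind (¬ GoodK r K (x a).val) := Finset.sum_nonneg fun a _ => ind_nonneg _
      linarith
    · push Not at ha
      obtain ⟨a, ha⟩ := ha
      have h3 := Finset.single_le_sum (f := fun a => ind (¬ GoodK r K (x a).val))
        (fun p _ => ind_nonneg _) (Finset.mem_univ a)
      beta_reduce at h3
      rw [ind_true ha] at h3
      have h4 : 0 ≤ ∑ g : Fin (r + 2) → ZMod 9, ind (AK r M F g x) :=
        Finset.sum_nonneg fun p _ => ind_nonneg _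
      linarith
  have h2 := avg_mono h1
  rw [avg_sum, avg_sub, avg_const, avg_sum] at h2
  have h3 : ∀ a : Fin (r + 2), avg (fun x : Fin (r + 2) → ZMod (Lam K) =>
      ind (¬ GoodK r K (x a).val)) ≤ (1 / 4) * (1 / 2 : ℝ) ^ (r + 2) := by
    intro a
    rw [avg_coord a (fun t : ZMod (Lam K) => ind (¬ GoodK r K t.val))]
    exact avg_bad_K r K
  have h4 : ∑ a : Fin (r + 2), avg (fun x : Fin (r + 2) → ZMod (Lam K) =>
      ind (¬ GoodK r K (x a).val)) ≤ 1 / 4 := by
    refine (Finset.sum_le_sum fun a _ => h3 a).trans ?_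
    rw [Finset.sum_const, Finset.card_univ, Fintype.card_fin, nsmul_eq_mul]
    have h5 : ((r + 2 : ℕ) : ℝ) ≤ 2 ^ (r + 2) := by
      exact_mod_cast (Nat.lt_two_pow_self).le
    have h9 : (1 / 2 : ℝ) ^ (r + 2) * 2 ^ (r + 2) = 1 := by rw [← mul_pow]; norm_num
    have h10 : (0:ℝ) < (1 / 2 : ℝ) ^ (r + 2) := by positivity
    nlinarith
  have h5 : ∑ g : Fin (r + 2) → ZMod 9, avg (fun x => ind (AK r M F g x)) <
      ∑ _g : Fin (r + 2) → ZMod 9, (1 / 2 / (9 : ℝ) ^ (r + 2)) :=
    Finset.sum_lt_sum_of_nonempty Finset.univ_nonempty fun g _ => hcon g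
  have h6 : ∑ _g : Fin (r + 2) → ZMod 9, (1 / 2 / (9 : ℝ) ^ (r + 2)) = 1 / 2 := by
    rw [Finset.sum_const, Finset.card_univ, Fintype.card_fun, ZMod.card, Fintype.card_fin,
      nsmul_eq_mul]
    push_cast
    field_simp
  linarith

lemma wg_val (r : ℕ) (s : ℕ → ℕ) (h0 : s 0 = 0 ∨ s 0 = 1 ∨ s 0 = 3 ∨ s 0 = 4)
    (h1 : ∀ c, s (c + 1) ≤ 1) :
    wg r (fun c => if c < r + 1 then (s c : ZMod 9) else 0)
      = if (s 0 = 4 ∧ ∀ c ∈ range r, s (c + 1) = 1) then 3 else 0 := by
  unfold wg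
  have e0 : (if (0:ℕ) < r + 1 then (s 0 : ZMod 9) else 0) = (s 0 : ZMod 9) := by simp
  have e1 : ((if (0:ℕ) < r + 1 then (s 0 : ZMod 9) else 0) = 4) ↔ s 0 = 4 := by
    rw [e0]
    rcases h0 with h | h | h | h <;> simp [h] <;> decide
  have e2 : ∏ c ∈ range r, (if c + 1 < r + 1 then (s (c + 1) : ZMod 9) else 0)
      = if (∀ c ∈ range r, s (c + 1) = 1) then 1 else 0 := by
    by_cases h : ∀ c ∈ range r, s (c + 1) = 1
    · rw [if_pos h]
      apply Finset.prod_eq_one
      intro c hc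
      rw [if_pos (by have := Finset.mem_range.1 hc; omega), h c hc]
      simp
    · rw [if_neg h]
      push Not at h
      obtain ⟨c, hc, hne⟩ := h
      apply Finset.prod_eq_zero hc
      have : s (c + 1) = 0 := by
        have := h1 c
        omega
      rw [this]
      simp
  rw [e2]
  by_cases h4 : s 0 = 4
  · rw [if_pos (e1.2 h4)]
    by_cases h5 : ∀ c ∈ range r, s (c + 1) = 1
    · rw [if_pos h5, if_pos ⟨h4, h5⟩, mul_one]
    · rw [if_neg h5, if_neg (fun h => h5 (And.right h)), mul_zero]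
  · rw [if_neg (fun h => h4 (e1.1 h)), zero_mul, if_neg (fun h => h4 (And.left h))]

theorem no_corner_K (r M : ℕ) (F : Fin (r + 2) → (Fin (r + 2) → DV) → ZMod 9)
    (hF : ∀ p, ∀ n ∈ DD, ∑ i, (F i (p + Pi.single i n) - F i p) = wg r n)
    (g : Fin (r + 2) → ZMod 9) (n : ℕ) (hn : InK r n) (hM : n < M)
    (x : Fin (r + 2) → ZMod (Lam (ix r M 0))) :
    ¬ (AK r M F g x ∧ ∀ l, AK r M F g
      (x + (Pi.single l (n : ZMod (Lam (ix r M 0))) : Fin (r + 2) → ZMod (Lam (ix r M 0))))) := by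
  classical
  rintro ⟨⟨hx, hg⟩, hA⟩
  obtain ⟨s, hs, h3, hsum⟩ := inK_normal hn hM
  have hs4 : ∀ j, flat r s j ≤ 4 := by
    intro j
    unfold flat
    split_ifs
    · omega
    · generalize (j - (r + 2)) / (r + 1) = i
      generalize (j - (r + 2)) % (r + 1) = c
      rcases c with _ | c
      · have := (hs i).1
        omega
      · have := (hs i).2 c
        omega
  have hsum' : ∑ j ∈ range (ix r M 0), flat r s j * Lam j = n := by
    rw [sum_flat, ← hsum]
  have hdig : ∀ y : ZMod (Lam (ix r M 0)), GoodK r (ix r M 0) y.val → ∀ i ∈ range M,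
      ∀ c < r + 1, dig (ix r i c) (y + (n : ZMod (Lam (ix r M 0)))).val
        = dig (ix r i c) y.val + (s i c : ZMod 9) := by
    intro y hy i hi c hc
    rw [Finset.mem_range] at hi
    have hlt : ix r i c < ix r M 0 := by
      unfold ix
      have : (i + 1) * (r + 1) ≤ M * (r + 1) := Nat.mul_le_mul_right _ hi
      have e : (i + 1) * (r + 1) = i * (r + 1) + (r + 1) := by ring
      omega
    have hval : (y + (n : ZMod (Lam (ix r M 0)))).val = (y.val + n) % Lam (ix r M 0) := by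
      rw [ZMod.val_add, ZMod.val_natCast, Nat.add_mod_mod]
    rw [hval, dig_mod _ (ix r M 0) _ hlt]
    have h5 := dig_add (ix r M 0) (ix r i c) y.val (flat r s) hs4 hlt
      (hy _ (by unfold ix; omega) hlt)
    rw [hsum', flat_ix r s i c hc] at h5
    exact h5
  -- the digit vectors
  let nv : ℕ → DV := fun i c => if c < r + 1 then (s i c : ZMod 9) else 0
  have hnv : ∀ i, nv i ∈ DD := by
    intro i
    have h0 := (hs i).1
    have e0 : nv i 0 = (s i 0 : ZMod 9) := by
      show (if (0:ℕ) < r + 1 then (s i 0 : ZMod 9) else 0) = _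
      rw [if_pos (by omega)]
    show nv i 0 = 0 ∨ nv i 0 = 1 ∨ nv i 0 = 3 ∨ nv i 0 = 4
    rw [e0]
    rcases h0 with h | h | h | h <;> simp [h]
  have hdv : ∀ i ∈ range M, ∀ l : Fin (r + 2),
      (fun a => dv r i ((x + (Pi.single l (n : ZMod (Lam (ix r M 0))) :
        Fin (r + 2) → ZMod (Lam (ix r M 0)))) a).val)
        = (fun a => dv r i (x a).val) + Pi.single l (nv i) := by
    intro i hi l
    funext a
    rw [Pi.add_apply, Pi.add_apply]
    by_cases hal : a = l
    · subst hal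
      rw [Pi.single_eq_same, Pi.single_eq_same]
      funext c
      rw [Pi.add_apply]
      show (if c < r + 1 then dig (ix r i c) (x a + (n : ZMod (Lam (ix r M 0)))).val else 0)
        = (if c < r + 1 then dig (ix r i c) (x a).val else 0)
          + (if c < r + 1 then (s i c : ZMod 9) else 0)
      by_cases hc : c < r + 1
      · rw [if_pos hc, if_pos hc, if_pos hc, hdig (x a) (hx a) i hi c hc]
      · rw [if_neg hc, if_neg hc, if_neg hc, add_zero]
    · rw [Pi.single_eq_of_ne hal, Pi.single_eq_of_ne hal, add_zero, add_zero]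
  have e1 : ∑ l, (col r M F l (x + (Pi.single l (n : ZMod (Lam (ix r M 0))) :
      Fin (r + 2) → ZMod (Lam (ix r M 0)))) - col r M F l x) = 0 := by
    apply Finset.sum_eq_zero
    intro l _
    rw [(hA l).2 l, hg l, sub_self]
  unfold col at e1
  simp only [← Finset.sum_sub_distrib] at e1
  rw [Finset.sum_comm] at e1
  have e2 : ∀ i ∈ range M, ∑ l, (F l (fun a => dv r i ((x +
      (Pi.single l (n : ZMod (Lam (ix r M 0))) : Fin (r + 2) → ZMod (Lam (ix r M 0)))) a).val)
      - F l (fun a => dv r i (x a).val))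
      = if (s i 0 = 4 ∧ ∀ c ∈ range r, s i (c + 1) = 1) then 3 else 0 := by
    intro i hi
    simp only [hdv i hi]
    rw [hF _ (nv i) (hnv i)]
    exact wg_val r (s i) (hs i).1 (hs i).2
  rw [Finset.sum_congr rfl e2, ← Finset.sum_filter, Finset.sum_const] at e1
  have e3 : ((((range M).filter (fun i => s i 0 = 4 ∧ ∀ c ∈ range r, s i (c + 1) = 1)).card * 3
      : ℕ) : ZMod 9) = 0 := by
    rw [nsmul_eq_mul] at e1
    push_cast
    exact e1
  rw [ZMod.natCast_eq_zero_iff] at e3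
  apply h3
  omega

end Pool.Agent.H239.KRec
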