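import Pool.Agent.H239.KRec.DecayK
import Pool.Agent.H239.KRec.NegK
import Pool.Graph.R_seed8.Helper868.DHJ

/-!
Positivity: the digit set is a set of `k`-recurrence.
-/

namespace Pool.Agent.H239.KRec

open Finset MeasureTheory
open Pool.Agent.Helper406.Rec2 (Act meas_P)
open Pool.Agent.Helper406.Rec (game wt sd Xv Yv Zv yi zi Xv_sd Xv_sd2 wt_eq sd_vals exists_zeta
  avg ind ind_true ind_false ind_nonneg ind_le_one ind_and
  integral_ind integrable_ind avg_mono avg_const avg_le_one avg_sum avg_mul_left avg_congr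
  avg_restrict' Lam)

universe u

section base
variable {X : Type u} [MeasurableSpace X] {μ : Measure X} [IsProbabilityMeasure μ]

lemma base_fin (S : Act μ) (ζ : ℂ) (hζ : ζ ^ 2 + ζ + 1 = 0) (hn : ‖ζ‖ = 1) (n : ℕ)
    (lam : Fin n → ℤ) (f : ℕ → X → ℂ) (hf : ∀ l, Nice (f l)) :
    ‖∑ a : Fin n → Fin 3, ∑ b : Fin n → Fin 2, (∏ i, wt ζ (a i) (b i)) *
      ∫ x, ∏ l ∈ range (2 + 1), f l (S.P ((l : ℤ) * ∑ i, (sd (a i) (b i) : ℤ) * lam i) x) ∂μ‖
      ≤ Real.sqrt ((141 / 4) ^ n) := by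
  set F : X → (Fin n → Fin 3) → ℂ := fun x a => f 0 (S.P (∑ i, (Xv (a i) : ℤ) * lam i) x) with hF
  set G : X → (Fin n → Fin 3) → ℂ := fun x a => f 1 (S.P (∑ i, (Yv (a i) : ℤ) * lam i) x) with hG
  set H : X → (Fin n → Fin 3) → ℂ := fun x a => f 2 (S.P (∑ i, (Zv (a i) : ℤ) * lam i) x) with hH
  have hsums1 : ∀ (a : Fin n → Fin 3) (b : Fin n → Fin 2),
      ∑ i, (sd (a i) (b i) : ℤ) * lam i + ∑ i, (Xv (a i) : ℤ) * lam i
        = ∑ i, (Yv (yi (a i) (b i)) : ℤ) * lam i := by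
    intro a b
    rw [← Finset.sum_add_distrib]
    apply Finset.sum_congr rfl; intro i _
    rw [← Xv_sd]; push_cast; ring
  have hsums2 : ∀ (a : Fin n → Fin 3) (b : Fin n → Fin 2),
      2 * ∑ i, (sd (a i) (b i) : ℤ) * lam i + ∑ i, (Xv (a i) : ℤ) * lam i
        = ∑ i, (Zv (zi (a i) (b i)) : ℤ) * lam i := by
    intro a b
    rw [Finset.mul_sum, ← Finset.sum_add_distrib]
    apply Finset.sum_congr rfl; intro i _
    rw [← Xv_sd2]; push_cast; ring
  have hint : ∀ (a : Fin n → Fin 3) (b : Fin n → Fin 2),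
      ∫ x, ∏ l ∈ range (2 + 1), f l (S.P ((l : ℤ) * ∑ i, (sd (a i) (b i) : ℤ) * lam i) x) ∂μ
        = ∫ x, F x a * (G x (fun i => yi (a i) (b i)) * H x (fun i => zi (a i) (b i))) ∂μ := by
    intro a b
    have hmeas : Measurable fun x => ∏ l ∈ range (2 + 1),
        f l (S.P ((l : ℤ) * ∑ i, (sd (a i) (b i) : ℤ) * lam i) x) :=
      (Nice.prod (range (2 + 1)) fun l _ => (hf l).comp (S.mp _).measurable).1
    rw [← integral_shift S (∑ i, (Xv (a i) : ℤ) * lam i) hmeas]
    congr 1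
    funext x
    rw [Finset.prod_range_succ, Finset.prod_range_succ, Finset.prod_range_one, mul_assoc]
    rw [hF, hG, hH]
    beta_reduce
    rw [← S.add, ← S.add, ← S.add, ← hsums1, ← hsums2]
    push_cast
    rw [zero_mul, zero_add, one_mul]
  have hN : ∀ (a : Fin n → Fin 3) (b : Fin n → Fin 2), Nice (fun x => F x a *
      (G x (fun i => yi (a i) (b i)) * H x (fun i => zi (a i) (b i)))) := by
    intro a b
    exact ((hf 0).comp (S.mp _).measurable).mul
      (((hf 1).comp (S.mp _).measurable).mul ((hf 2).comp (S.mp _).measurable))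
  have hS : (∑ a : Fin n → Fin 3, ∑ b : Fin n → Fin 2, (∏ i, wt ζ (a i) (b i)) *
      ∫ x, ∏ l ∈ range (2 + 1), f l (S.P ((l : ℤ) * ∑ i, (sd (a i) (b i) : ℤ) * lam i) x) ∂μ)
      = ∫ x, ∑ a : Fin n → Fin 3, ∑ b : Fin n → Fin 2, (∏ i, wt ζ (a i) (b i)) *
        (F x a * (G x (fun i => yi (a i) (b i)) * H x (fun i => zi (a i) (b i)))) ∂μ := by
    rw [integral_finsetSum]
    · apply Finset.sum_congr rfl; intro a _
      rw [integral_finsetSum]
      · apply Finset.sum_congr rfl; intro b _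
        rw [integral_const_mul, hint]
      · intro b _
        exact ((hN a b).integrable μ).const_mul _
    · intro a _
      apply integrable_finsetSum
      intro b _
      exact ((hN a b).integrable μ).const_mul _
  rw [hS]
  have hC : ∀ x, ‖∑ a : Fin n → Fin 3, ∑ b : Fin n → Fin 2, (∏ i, wt ζ (a i) (b i)) *
        (F x a * (G x (fun i => yi (a i) (b i)) * H x (fun i => zi (a i) (b i))))‖
        ≤ Real.sqrt ((141 / 4) ^ n) := by
    intro x
    apply Real.le_sqrt_of_sq_le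
    exact game ζ hζ hn n (F x) (G x) (H x) (fun a => (hf _).2 _) (fun a => (hf _).2 _)
      (fun a => (hf _).2 _)
  have := norm_integral_le_of_norm_le_const (μ := μ) (Filter.Eventually.of_forall hC)
  simpa using this

theorem decay_base (S : Act μ) (ζ : ℂ) (hζ : ζ ^ 2 + ζ + 1 = 0) (hn : ‖ζ‖ = 1) :
    Decay S 2 (Fin 3 × Fin 2) (fun e => wt ζ e.1 e.2)
      {σ | ∃ t : ℤ, σ = fun e => (sd e.1 e.2 : ℤ) * t} (Real.sqrt (141 / 144)) := by
  classical
  intro ι _ _ s hs f hf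
  choose t ht using hs
  have e : ι ≃ Fin (Fintype.card ι) := Fintype.equivFin ι
  have key := base_fin S ζ hζ hn (Fintype.card ι) (fun i => t (e.symm i)) f hf
  have h1 : ∑ u : ι → Fin 3 × Fin 2, (∏ i, wt ζ (u i).1 (u i).2) *
      ∫ x, ∏ l ∈ range (2 + 1), f l (S.P ((l : ℤ) * ∑ i, s i (u i)) x) ∂μ
      = ∑ a : Fin (Fintype.card ι) → Fin 3, ∑ b : Fin (Fintype.card ι) → Fin 2,
        (∏ i, wt ζ (a i) (b i)) *
      ∫ x, ∏ l ∈ range (2 + 1),
        f l (S.P ((l : ℤ) * ∑ i, (sd (a i) (b i) : ℤ) * t (e.symm i)) x) ∂μ := by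
    rw [← Fintype.sum_prod_type (f := fun q : (Fin (Fintype.card ι) → Fin 3) ×
      (Fin (Fintype.card ι) → Fin 2) => (∏ i, wt ζ (q.1 i) (q.2 i)) *
      ∫ x, ∏ l ∈ range (2 + 1),
        f l (S.P ((l : ℤ) * ∑ i, (sd (q.1 i) (q.2 i) : ℤ) * t (e.symm i)) x) ∂μ)]
    rw [← Equiv.sum_comp (Equiv.arrowProdEquivProdArrow (Fin (Fintype.card ι)) (fun _ => Fin 3)
      (fun _ => Fin 2))]
    rw [← Equiv.sum_comp (Equiv.arrowCongr e.symm (Equiv.refl (Fin 3 × Fin 2)))]
    apply Finset.sum_congr rfl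
    intro v _
    have e1 : ∏ i, wt ζ ((Equiv.arrowCongr e.symm (Equiv.refl (Fin 3 × Fin 2))) v i).1
        ((Equiv.arrowCongr e.symm (Equiv.refl (Fin 3 × Fin 2))) v i).2
        = ∏ i, wt ζ ((Equiv.arrowProdEquivProdArrow (Fin (Fintype.card ι)) (fun _ => Fin 3)
      (fun _ => Fin 2) v).1 i) ((Equiv.arrowProdEquivProdArrow (Fin (Fintype.card ι))
        (fun _ => Fin 3) (fun _ => Fin 2) v).2 i) := by
      rw [← Equiv.prod_comp e (fun i => wt ζ ((Equiv.arrowProdEquivProdArrow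
        (Fin (Fintype.card ι)) (fun _ => Fin 3)
        (fun _ => Fin 2) v).1 i) ((Equiv.arrowProdEquivProdArrow (Fin (Fintype.card ι))
        (fun _ => Fin 3) (fun _ => Fin 2) v).2 i))]
      apply Finset.prod_congr rfl
      intro i _
      simp [Equiv.arrowCongr, Equiv.arrowProdEquivProdArrow]
    have e2 : ∑ i, s i ((Equiv.arrowCongr e.symm (Equiv.refl (Fin 3 × Fin 2))) v i)
        = ∑ i, (sd ((Equiv.arrowProdEquivProdArrow (Fin (Fintype.card ι)) (fun _ => Fin 3)
      (fun _ => Fin 2) v).1 i) ((Equiv.arrowProdEquivProdArrow (Fin (Fintype.card ι))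
        (fun _ => Fin 3) (fun _ => Fin 2) v).2 i) : ℤ) * t (e.symm i) := by
      rw [← Equiv.sum_comp e (fun i => (sd ((Equiv.arrowProdEquivProdArrow (Fin (Fintype.card ι))
        (fun _ => Fin 3)
      (fun _ => Fin 2) v).1 i) ((Equiv.arrowProdEquivProdArrow (Fin (Fintype.card ι))
        (fun _ => Fin 3) (fun _ => Fin 2) v).2 i) : ℤ) * t (e.symm i))]
      apply Finset.sum_congr rfl
      intro i _
      rw [ht i]
      simp [Equiv.arrowCongr, Equiv.arrowProdEquivProdArrow]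
    rw [e1, e2]
  beta_reduce
  rw [h1]
  refine key.trans (le_of_eq ?_)
  have h2 : (0:ℝ) ≤ (Real.sqrt (141 / 144) * Fintype.card (Fin 3 × Fin 2)) ^ Fintype.card ι := by
    positivity
  rw [← Real.sqrt_sq h2]
  congr 1
  rw [← pow_mul, mul_comm (Fintype.card ι) 2, pow_mul, mul_pow, Real.sq_sqrt (by norm_num)]
  congr 1
  rw [Fintype.card_prod, Fintype.card_fin, Fintype.card_fin]
  norm_num

end base

lemma Decay.congr' {X : Type u} [MeasurableSpace X] {μ : Measure X} [IsProbabilityMeasure μ]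
    {S : Act μ} {m : ℕ} {E : Type} [Fintype E] {w w' : E → ℂ} {Sig Sig' : Set (E → ℤ)}
    {ρ : ℝ} (h : Decay S m E w Sig ρ) (hw : ∀ e, w' e = w e) (hS : ∀ σ ∈ Sig', σ ∈ Sig) :
    Decay S m E w' Sig' ρ := by
  have e : w' = w := funext hw
  subst e
  intro ι _ _ s hs f hf
  exact h ι s (fun i => hS _ (hs i)) f hf

/-- the digit functions of the iterated alphabet -/
def dgS {E : Type} (r : ℕ) (dg : E → ℕ → ℕ) (e : E × Bool) (c : ℕ) : ℕ :=
  if c = r + 1 then (if e.2 = true then 1 else 0) else dg e.1 c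

lemma dgS_top {E : Type} (r : ℕ) (dg : E → ℕ → ℕ) (e : E × Bool) :
    dgS r dg e (r + 1) = if e.2 = true then 1 else 0 := by
  unfold dgS
  rw [if_pos rfl]

lemma dgS_ne {E : Type} (r : ℕ) (dg : E → ℕ → ℕ) (e : E × Bool) (c : ℕ) (hc : c ≠ r + 1) :
    dgS r dg e c = dg e.1 c := by
  unfold dgS
  rw [if_neg hc]

/-- the condition for a nontrivial weight -/
def Full {E : Type} (r : ℕ) (dg : E → ℕ → ℕ) (e : E) : Prop :=
  dg e 0 = 4 ∧ ∀ c ∈ range r, dg e (c + 1) = 1

lemma Full_dgS {E : Type} (r : ℕ) (dg : E → ℕ → ℕ) (e : E × Bool) :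
    Full (r + 1) (dgS r dg) e ↔ (e.2 = true ∧ Full r dg e.1) := by
  unfold Full
  rw [dgS_ne r dg e 0 (by omega)]
  constructor
  · rintro ⟨a, b⟩
    refine ⟨?_, a, fun c hc => ?_⟩
    · have := b r (Finset.mem_range.2 (by omega))
      rw [dgS_top] at this
      by_contra hb
      rw [if_neg hb] at this
      omega
    · rw [Finset.mem_range] at hc
      have := b c (Finset.mem_range.2 (by omega))
      rw [dgS_ne r dg e (c + 1) (by omega)] at this
      exact this
  · rintro ⟨hb, a, b⟩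
    refine ⟨a, fun c hc => ?_⟩
    rw [Finset.mem_range] at hc
    by_cases hcr : c = r
    · subst hcr
      rw [dgS_top, if_pos hb]
    · rw [dgS_ne r dg e (c + 1) (by omega)]
      exact b c (Finset.mem_range.2 (by omega))

/-- the weight of a letter -/
noncomputable def wF (ζ : ℂ) {E : Type} (r : ℕ) (dg : E → ℕ → ℕ) (e : E) : ℂ := by
  classical
  exact if Full r dg e then ζ else 1

lemma norm_wF (ζ : ℂ) (hn : ‖ζ‖ = 1) {E : Type} (r : ℕ) (dg : E → ℕ → ℕ) (e : E) :
    ‖wF ζ r dg e‖ = 1 := by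
  unfold wF
  split_ifs
  · exact hn
  · simp

/-- alphabets with exponential decay -/
theorem exists_alphabet (ζ : ℂ) (hζ : ζ ^ 2 + ζ + 1 = 0) (hn : ‖ζ‖ = 1) (r : ℕ) :
    ∃ (E : Type) (_ : Fintype E) (_ : Nonempty E) (dg : E → ℕ → ℕ) (ρ : ℝ),
      0 ≤ ρ ∧ ρ < 1 ∧ (∀ e, dg e 0 = 0 ∨ dg e 0 = 1 ∨ dg e 0 = 3 ∨ dg e 0 = 4) ∧
      (∀ e c, dg e (c + 1) ≤ 1) ∧
      ∀ (X : Type u) [MeasurableSpace X] (μ : Measure X) [IsProbabilityMeasure μ] (S : Act μ),
        Decay S (r + 2) E (wF ζ r dg)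
          {σ | ∃ t : ℕ → ℤ, σ = fun e => ∑ c ∈ range (r + 1), (dg e c : ℤ) * t c} ρ := by
  classical
  induction r with
  | zero =>
    refine ⟨Fin 3 × Fin 2, inferInstance, inferInstance, fun e c => if c = 0 then sd e.1 e.2 else 0,
      Real.sqrt (141 / 144), Real.sqrt_nonneg _, ?_, ?_, ?_, ?_⟩
    · rw [show (1:ℝ) = Real.sqrt 1 by simp]
      exact Real.sqrt_lt_sqrt (by norm_num) (by norm_num)
    · intro e
      simpa using sd_vals e
    · intro e c
      simp
    · intro X _ μ _ S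
      apply (decay_base S ζ hζ hn).congr'
      · intro e
        rw [wt_eq]
        unfold wF Full
        by_cases h4 : sd e.1 e.2 = 4 <;> simp [h4]
      · rintro σ ⟨t, ht⟩
        refine ⟨t 0, ?_⟩
        rw [ht]
        funext e
        simp
  | succ r ih =>
    obtain ⟨E, hE1, hE2, dg, ρ, hρ0, hρ1, h0, h1, hdec⟩ := ih
    refine ⟨E × Bool, inferInstance, inferInstance, dgS r dg,
      Real.sqrt ((3 + ρ) / 4), Real.sqrt_nonneg _, ?_, ?_, ?_, ?_⟩
    · rw [show (1:ℝ) = Real.sqrt 1 by simp]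
      exact Real.sqrt_lt_sqrt (by positivity) (by linarith)
    · intro e
      rw [dgS_ne r dg e 0 (by omega)]
      exact h0 e.1
    · intro e c
      by_cases hc : c = r
      · subst hc
        rw [dgS_top]
        split_ifs <;> omega
      · rw [dgS_ne r dg e (c + 1) (by omega)]
        exact h1 e.1 c
    · intro X _ μ _ S
      apply ((hdec X μ S).step hρ0 (norm_wF ζ hn r dg)).congr'
      · intro e
        unfold wF
        by_cases hb : e.2 = true
        · rw [if_pos hb]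
          by_cases hF : Full r dg e.1
          · rw [if_pos hF, if_pos ((Full_dgS r dg e).2 ⟨hb, hF⟩)]
          · rw [if_neg hF, if_neg (fun h => hF ((Full_dgS r dg e).1 h).2)]
        · rw [if_neg hb, if_neg (fun h => hb ((Full_dgS r dg e).1 h).1)]
      · rintro σ ⟨t, ht⟩
        refine ⟨fun e => ∑ c ∈ range (r + 1), (dg e c : ℤ) * t c, ⟨t, rfl⟩, t (r + 1), ?_⟩
        rw [ht]
        funext e
        rw [Finset.sum_range_succ]
        congr 1
        · apply Finset.sum_congr rfl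
          intro c hc
          rw [Finset.mem_range] at hc
          rw [dgS_ne r dg e c (by omega)]
        · rw [dgS_top]
          by_cases hb : e.2 = true <;> simp [hb]

end Pool.Agent.H239.KRec
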